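import Pool.Agent.H90.Frc.Fml

/-!
# The statement about HFC_w spaces

Everything here is about an arbitrary structure `(M, E)` with one binary relation `E`, read as
membership.  All quantifiers of the predicates below range over the elements of `M`.  The basic
vocabulary (`IsSub`, `Rel`, `SizeLe`, `IsOmega`, `IsCard`) is in `Pool/Agent/H90/Frc/Stmt.lean`.
`w` stands for `ω`, `l` for the cardinal `λ`.  A point of `2^λ` is represented by the set of the
`α ∈ λ` at which its value is `1`, that is, by a subset of `l`.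
-/

set_option autoImplicit false

namespace Pool.Agent.H51.Hfc

open Pool.Agent.H90.Frc

section Vocabulary

variable {M : Type} (E : M → M → Prop)

/-- the set `a` is finite -/
def IsFin (w a : M) : Prop := ∃ n, E n w ∧ SizeLe E a n

/-- `e` is the increasing enumeration of the set of ordinals `F` by the natural number `n`: a
strictly increasing function from `n` onto `F` -/
def IsEnum (n F e : M) : Prop :=
  (∀ i, E i n → ∃ α, E α F ∧ Rel E e i α) ∧
  (∀ i α, Rel E e i α → E i n ∧ E α F) ∧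
  (∀ α, E α F → ∃ i, Rel E e i α) ∧
  (∀ i α β, Rel E e i α → Rel E e i β → α = β) ∧
  ∀ i j α β, Rel E e i α → Rel E e j β → (E i j ↔ E α β)

/-- `x` is in the basic open set `[F * b]`, where `F` is a set of ordinals of size `n` and `b ⊆ n`
represents an element of `2^n`: for every `i ∈ n`, if `α` is the `i`-th element of `F` then
`x(α) = b(i)`. -/
def InBox (n F b x : M) : Prop :=
  ∃ e, IsEnum E n F e ∧ ∀ i α, Rel E e i α → (E α x ↔ E i b)

/-- `X ⊆ 2^λ` is an `HFC_w` space: for every `n ∈ ω` and every uncountable family `A` of pairwise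
disjoint `n`-element subsets of `λ` there is a countable `B ⊆ A` such that for each `b ∈ 2^n` the
set of the points of `X` outside of all `[F * b]`, `F ∈ B`, is countable. -/
def IsHFCw (w l X : M) : Prop :=
  (∀ x, E x X → IsSub E x l) ∧
  ∀ n, E n w → ∀ A, (∀ F, E F A → IsSub E F l ∧ ∃ e, IsEnum E n F e) →
    (∀ F F' α, E F A → E F' A → E α F → E α F' → F = F') → ¬ SizeLe E A w →
    ∃ B, IsSub E B A ∧ SizeLe E B w ∧
      ∀ b, IsSub E b n → ∀ Y, (∀ x, E x Y ↔ E x X ∧ ∀ F, E F B → ¬ InBox E n F b x) →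
        SizeLe E Y w

/-- the points `y` and `z` have the same restriction to `a ⊆ λ` -/
def Agree (a y z : M) : Prop := ∀ α, E α a → (E α y ↔ E α z)

/-- `U` is a neighbourhood assignment on the subspace `X` of `2^λ` (`Rel U x y` says `y ∈ U_x`): every
`x ∈ X` is in `U_x`, and `U_x` is open in `X`: with `y` it contains all `z ∈ X` which agree with `y` on
some finite subset `a` of `λ`. -/
def IsNbhd (w l X U : M) : Prop :=
  ∀ x, E x X → Rel E U x x ∧ ∀ y, E y X → Rel E U x y →
    ∃ a, IsSub E a l ∧ IsFin E w a ∧ ∀ z, E z X → Agree E a y z → Rel E U x z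

/-- the subset `D` of `2^λ` is discrete in its subspace topology -/
def IsDiscr (w l D : M) : Prop :=
  ∀ x, E x D → ∃ a, IsSub E a l ∧ IsFin E w a ∧ ∀ y, E y D → Agree E a x y → y = x

/-- the subspace `X` of `2^λ` is dually discrete: for every neighbourhood assignment `U` on `X` there is
a discrete `D ⊆ X` such that the sets `U_d`, `d ∈ D`, cover `X` -/
def DuallyDiscrete (w l X : M) : Prop :=
  ∀ U, IsNbhd E w l X U → ∃ D, IsSub E D X ∧ IsDiscr E w l D ∧
    ∀ x, E x X → ∃ d, E d D ∧ Rel E U d x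

/-- In `(M, E)`: for some uncountable cardinal `λ` some `HFC_w` subspace of `2^λ` is not dually
discrete. -/
def HfcStatement : Prop :=
  ∃ w l X, IsOmega E w ∧ IsCard E l ∧ ¬ SizeLe E l w ∧ IsHFCw E w l X ∧
    ¬ DuallyDiscrete E w l X

end Vocabulary

section

variable {n : ℕ}

theorem dfn_isFin (i j : Fin n) : Dfn (fun _ E v => IsFin E (v i) (v j)) :=
  .ex (.and (.mem _ _) (dfn_sizeLe _ _))

theorem dfn_isEnum (i j k : Fin n) : Dfn (fun _ E v => IsEnum E (v i) (v j) (v k)) :=
  .and (.all (.imp (.mem _ _) (.ex (.and (.mem _ _) (dfn_rel _ _ _)))))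
    (.and (.all (.all (.imp (dfn_rel _ _ _) (.and (.mem _ _) (.mem _ _)))))
    (.and (.all (.imp (.mem _ _) (.ex (dfn_rel _ _ _))))
    (.and (.all (.all (.all (.imp (dfn_rel _ _ _) (.imp (dfn_rel _ _ _) (.eq _ _))))))
    (.all (.all (.all (.all (.imp (dfn_rel _ _ _) (.imp (dfn_rel _ _ _)
      (.iff (.mem _ _) (.mem _ _)))))))))))

theorem dfn_inBox (i j k m : Fin n) : Dfn (fun _ E v => InBox E (v i) (v j) (v k) (v m)) :=
  .ex (.and (dfn_isEnum _ _ _) (.all (.all (.imp (dfn_rel _ _ _)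
    (.iff (.mem _ _) (.mem _ _))))))

theorem dfn_isHFCw (i j k : Fin n) : Dfn (fun _ E v => IsHFCw E (v i) (v j) (v k)) := by
  refine .and (.all (.imp (.mem _ _) (dfn_isSub _ _))) (.all (.imp (.mem _ _) (.all (.imp ?_
    (.imp ?_ (.imp (.not (dfn_sizeLe _ _)) (.ex (.and (dfn_isSub _ _) (.and (dfn_sizeLe _ _)
    (.all (.imp (dfn_isSub _ _) (.all (.imp ?_ (dfn_sizeLe _ _)))))))))))))) 
  · exact .all (.imp (.mem _ _) (.and (dfn_isSub _ _) (.ex (dfn_isEnum _ _ _))))
  · exact .all (.all (.all (.imp (.mem _ _) (.imp (.mem _ _) (.imp (.mem _ _)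
      (.imp (.mem _ _) (.eq _ _)))))))
  · exact .all (.iff (.mem _ _) (.and (.mem _ _) (.all (.imp (.mem _ _)
      (.not (dfn_inBox _ _ _ _))))))

theorem dfn_agree (i j k : Fin n) : Dfn (fun _ E v => Agree E (v i) (v j) (v k)) :=
  .all (.imp (.mem _ _) (.iff (.mem _ _) (.mem _ _)))

theorem dfn_isNbhd (i j k m : Fin n) : Dfn (fun _ E v => IsNbhd E (v i) (v j) (v k) (v m)) :=
  .all (.imp (.mem _ _) (.and (dfn_rel _ _ _) (.all (.imp (.mem _ _) (.imp (dfn_rel _ _ _)
    (.ex (.and (dfn_isSub _ _) (.and (dfn_isFin _ _) (.all (.imp (.mem _ _)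
      (.imp (dfn_agree _ _ _) (dfn_rel _ _ _))))))))))))

theorem dfn_isDiscr (i j k : Fin n) : Dfn (fun _ E v => IsDiscr E (v i) (v j) (v k)) :=
  .all (.imp (.mem _ _) (.ex (.and (dfn_isSub _ _) (.and (dfn_isFin _ _) (.all (.imp (.mem _ _)
    (.imp (dfn_agree _ _ _) (.eq _ _))))))))

theorem dfn_duallyDiscrete (i j k : Fin n) :
    Dfn (fun _ E v => DuallyDiscrete E (v i) (v j) (v k)) :=
  .all (.imp (dfn_isNbhd _ _ _ _) (.ex (.and (dfn_isSub _ _) (.and (dfn_isDiscr _ _ _)
    (.all (.imp (.mem _ _) (.ex (.and (.mem _ _) (dfn_rel _ _ _)))))))))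

theorem dfn_hfcStatement : Dfn (n := n) (fun _ E _ => HfcStatement E) :=
  .ex (.ex (.ex (.and (dfn_isOmega _) (.and (dfn_isCard _) (.and (.not (dfn_sizeLe _ _))
    (.and (dfn_isHFCw _ _ _) (.not (dfn_duallyDiscrete _ _ _))))))))

end

end Pool.Agent.H51.Hfc
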