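import Pool.Agent.H51.Hfc.Cd

/-!
# Codes for names of countable sets of indices, and the bookkeeping (module HFC-BOOK)

A code is a countable set `N` of pairs `(α, t)`; it is a name for the set of the `α` such that
`(α, t) ∈ N` for some `t` in the generic filter.  The bookkeeping lists all codes, each of them with an
index above its support.

Proof of `exists_book`: `#Ix = 𝔠` (`Cardinal.mk_toType`, `Cardinal.card_ord`), `#Cd ≤ 𝔠` (finite subsets of
`Ix × Ix × Bool`, see `countable_suppC` for the injection), so there are at most `𝔠 ^ ℵ₀ = 𝔠` countable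
subsets of `Ix × Cd` (images of `ℕ`, and `∅`).  Hence there is a surjection `e` from `Ix` onto
`{N // N.Countable} × Ix`.  Put `N β = (e β).1`.  Given `c`, the set `{β | (e β).1 = c}` has size `𝔠`, so it is
not contained in any `Set.Iic γ` (`Cardinal.mk_Iio_lt`-like: initial segments of `Ix` have size `< 𝔠`);
`supp c` is countable and so bounded by some `γ`, because the cofinality of `𝔠.ord` is uncountable
(`Cardinal.aleph0_lt_cof…`, or: if a sequence `γ n` is unbounded then the sets `Set.Iio (γ n)` have size
`< 𝔠` and cover `Ix`, contradicting König, `Cardinal.sum_lt_prod`, or `Cardinal.lt_cof_power`).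
-/

set_option autoImplicit false

namespace Pool.Agent.H51.Hfc

open Pool.Agent.H90.SN

/-- the elements used by a code -/
def supp (N : Set (Ix × Cd)) : Set Ix := {γ | ∃ x ∈ N, γ = x.1 ∨ γ ∈ x.2.sup}

theorem supp_countable {N : Set (Ix × Cd)} (h : N.Countable) : (supp N).Countable := by
  have h1 : supp N ⊆ ⋃ x ∈ N, ({x.1} ∪ x.2.sup) := by
    rintro γ ⟨x, hx, h1⟩
    exact Set.mem_biUnion hx h1
  exact (h.biUnion fun x _ => ((Set.finite_singleton _).union x.2.sup_finite).countable).mono h1

theorem ix_not_countable : ¬ (Set.univ : Set Ix).Countable := by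
  rw [Set.countable_univ_iff, ← Cardinal.mk_le_aleph0_iff, Cardinal.mk_toType, Cardinal.card_ord,
    not_le]
  exact Cardinal.aleph0_lt_continuum

/-- the bookkeeping -/
structure Book where
  /-- the codes -/
  N : Ix → Set (Ix × Cd)
  cnt : ∀ β, (N β).Countable
  cof : ∀ c : Set (Ix × Cd), c.Countable → ∃ β, N β = c ∧ supp c ⊆ Set.Iio β

theorem mk_ix : Cardinal.mk Ix = Cardinal.continuum := by
  rw [Cardinal.mk_toType, Cardinal.card_ord]

theorem infinite_ix : Infinite Ix := by
  rw [Cardinal.infinite_iff, mk_ix]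
  exact Cardinal.aleph0_lt_continuum.le

theorem mk_cd : Cardinal.mk Cd ≤ Cardinal.continuum := by
  have hf : ∀ q : Cd, {x : Ix × Ix × Bool | q.f x.1 x.2.1 = some x.2.2}.Finite := by
    intro q
    refine ((q.fin.prod (Set.finite_univ (α := Bool))).image
      (fun x => (x.1.1, x.1.2, x.2))).subset ?_
    rintro ⟨a, b, v⟩ hx
    refine ⟨((a, b), v), ⟨?_, trivial⟩, rfl⟩
    have : q.f a b = some v := hx
    simp [this]
  have hG : Function.Injective (fun q : Cd => (hf q).toFinset) := by
    intro p q h
    have h1 : ∀ a b v, p.f a b = some v ↔ q.f a b = some v := by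
      intro a b v
      have h2 : ((a, b, v) : Ix × Ix × Bool) ∈ (hf p).toFinset ↔
          (a, b, v) ∈ (hf q).toFinset := by
        have h3 : (hf p).toFinset = (hf q).toFinset := h
        rw [h3]
      rw [Set.Finite.mem_toFinset, Set.Finite.mem_toFinset] at h2
      exact h2
    refine le_antisymm (fun a b v hv => (h1 a b v).2 hv) (fun a b v hv => (h1 a b v).1 hv)
  have hi := infinite_ix
  have h2 := Cardinal.mk_le_of_injective hG
  refine h2.trans ?_
  rw [Cardinal.mk_finset_of_infinite, Cardinal.mk_prod, Cardinal.mk_prod]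
  simp only [Cardinal.lift_id, mk_ix, Cardinal.mk_bool]
  have h3 : (2 : Cardinal.{0}) ≤ Cardinal.continuum := by
    exact_mod_cast (Cardinal.nat_lt_continuum 2).le
  calc Cardinal.continuum * (Cardinal.continuum * 2)
      ≤ Cardinal.continuum * (Cardinal.continuum * Cardinal.continuum) :=
        mul_le_mul_right (mul_le_mul_right h3 _) _
    _ = Cardinal.continuum := by rw [Cardinal.continuum_mul_self, Cardinal.continuum_mul_self]

theorem mk_codes : Cardinal.mk {N : Set (Ix × Cd) // N.Countable} ≤ Cardinal.continuum := by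
  have h1 : Cardinal.mk {N : Set (Ix × Cd) // N.Countable} =
      Cardinal.mk {N : Set (Ix × Cd) // Cardinal.mk N ≤ Cardinal.aleph0} := by
    refine Cardinal.mk_congr (Equiv.subtypeEquivRight fun N => ?_)
    exact Cardinal.mk_le_aleph0_iff.symm
  rw [h1]
  refine (Cardinal.mk_bounded_set_le _ _).trans ?_
  have h2 : max (Cardinal.mk (Ix × Cd)) Cardinal.aleph0 ≤ Cardinal.continuum := by
    refine max_le ?_ Cardinal.aleph0_lt_continuum.le
    rw [Cardinal.mk_prod]
    simp only [Cardinal.lift_id, mk_ix]
    calc Cardinal.continuum * Cardinal.mk Cd ≤ Cardinal.continuum * Cardinal.continuum :=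
          mul_le_mul_right mk_cd _
      _ = Cardinal.continuum := Cardinal.continuum_mul_self
  refine (Cardinal.power_le_power_right h2).trans ?_
  rw [Cardinal.continuum_power_aleph0]

/-- countable sets of indices are strictly bounded -/
theorem exists_above {S : Set Ix} (hS : S.Countable) : ∃ γ : Ix, S ⊆ Set.Iio γ := by
  by_cases hc : IsCofinal S
  · exfalso
    have h1 := Order.cof_le hc
    have h2 : Cardinal.mk S ≤ Cardinal.aleph0 := Cardinal.mk_le_aleph0_iff.2 hS.to_subtype
    rw [Ordinal.cof_toType] at h1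
    have h3 : Cardinal.aleph0 < ((2 : Cardinal.{0}) ^ Cardinal.aleph0).ord.cof :=
      Cardinal.lt_cof_ord_power le_rfl (by norm_num)
    rw [Cardinal.two_power_aleph0] at h3
    exact absurd (h1.trans h2) (not_le.2 h3)
  · obtain ⟨γ, hγ⟩ := not_isCofinal_iff.1 hc
    exact ⟨γ, fun y hy => hγ y hy⟩

theorem exists_book : Nonempty Book := by
  have h1 : Cardinal.mk ({N : Set (Ix × Cd) // N.Countable} × Ix) ≤ Cardinal.mk Ix := by
    rw [Cardinal.mk_prod]
    simp only [Cardinal.lift_id, mk_ix]
    calc Cardinal.mk {N : Set (Ix × Cd) // N.Countable} * Cardinal.continuum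
        ≤ Cardinal.continuum * Cardinal.continuum := mul_le_mul_left mk_codes _
      _ = Cardinal.continuum := Cardinal.continuum_mul_self
  obtain ⟨j⟩ := Cardinal.le_def _ _ |>.1 h1
  have hi := infinite_ix
  have hn : Nonempty Ix := inferInstance
  have hn' : Nonempty ({N : Set (Ix × Cd) // N.Countable} × Ix) :=
    ⟨(⟨∅, Set.countable_empty⟩, hn.some)⟩
  refine ⟨⟨fun β => (Function.invFun j β).1.1, fun β => (Function.invFun j β).1.2, ?_⟩⟩
  intro c hc
  obtain ⟨γ, hγ⟩ := exists_above (supp_countable hc)
  by_contra hcon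
  push Not at hcon
  have h2 : ∀ δ : Ix, j (⟨c, hc⟩, δ) ∈ Set.Iio γ := by
    intro δ
    have h3 : (Function.invFun j (j (⟨c, hc⟩, δ))).1.1 = c := by
      rw [Function.leftInverse_invFun j.injective]
    have h4 := hcon _ h3
    rw [Set.mem_Iio]
    by_contra h5
    exact h4 (hγ.trans (Set.Iio_subset_Iio (not_lt.1 h5)))
  have h6 : Cardinal.mk Ix ≤ Cardinal.mk (Set.Iio γ) := by
    refine Cardinal.mk_le_of_injective
      (f := fun δ => (⟨j (⟨c, hc⟩, δ), h2 δ⟩ : Set.Iio γ)) ?_
    intro δ δ' h
    have h7 := congrArg Subtype.val h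
    exact (Prod.mk.inj (j.injective h7)).2
  have h8 := Cardinal.mk_Iio_toType_ord_lt γ
  rw [mk_ix] at h6
  exact absurd h6 (not_le.2 h8)

end Pool.Agent.H51.Hfc
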