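import Pool.Agent.H51.Hfc.Names

/-!
# `κ` is an uncountable cardinal in the generic structure (module HFC-CARDD)

* `isCard_kp`: `IsOrd` is `onN_isOrd`.  Let `b ∈ l`, the value of `onN γ`, `γ < kp` (`den_onN`), and suppose
  `IsInj g.E f l b`; `φ` a name of `f` (`g.exists_den`).  As in `not_sizeLe_onN'` of
  `Pool/Agent/H90/SN/OmD.lean` (there for `ω₁`, `ω` instead of `κ`, `γ`) use `Gen.tp` with conclusion
  `Dfn.const False`: `p` forces `IsInj φ (onN kp) (onN γ)`; for every `α : Ix` there are `q α ≤ p` and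
  `η α < γ` such that `q α` forces `Rel φ (iN α) (onN (η α))`.  Since `#Ix = 𝔠 > max (#γ.ToType) ℵ₀`
  (`Cardinal.lt_ord`), for some `ζ` the set `{α | η α = ζ}` is uncountable
  (otherwise `#Ix ≤ #γ * ℵ₀`, e.g. by `Cardinal.mk_iUnion_le_sum_mk` or
  `Cardinal.mk_le_of_surjective`…), so there is an injection `Om → {α | η α = ζ}` (`om_card`,
  `Cardinal.succ_aleph0`, as in `exists_fiber`).  By `cd_ccc` two of the `q α` are compatible, `r` below
  both; `r` forces `Rel φ (iN α) (onN ζ)` and `Rel φ (iN α') (onN ζ)`, contradicting injectivity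
  (`iN_inj`).
* `not_sizeLe_kp`: `w ∈ l` (`onN_mem_iff`, `ω < kp`), so this is `(isCard_kp hl).2 w`.
-/

set_option autoImplicit false

namespace Pool.Agent.H51.Hfc

open Pool.Agent.H90.SN Pool.Agent.H90.Frc Ordinal

variable {g : Gen Cd}

theorem isCard_kp {l : g.M} (hl : g.Den (onN Cd kp) l) : IsCard g.E l := by
  refine ⟨onN_isOrd hl, fun b hb => ?_⟩
  obtain ⟨γ, hγ, hbγ⟩ := (den_onN hl b).1 hb
  have hγc : Cardinal.mk γ.ToType < Cardinal.mk Ix := by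
    rw [Cardinal.mk_toType, Cardinal.mk_toType, Cardinal.card_ord]
    exact Cardinal.lt_ord.1 hγ
  have hunc : Uncountable Ix := by
    rw [← Cardinal.aleph0_lt_mk_iff, Cardinal.mk_toType, Cardinal.card_ord]
    exact Cardinal.aleph0_lt_continuum
  rintro ⟨f, hf⟩
  obtain ⟨φ, hφ⟩ := g.exists_den f
  refine Gen.tp (v := ![onN Cd kp, onN Cd γ, φ]) (a := ![l, b, f])
    (den3 hl hbγ hφ) (dfn_isInj 2 0 1) (Dfn.const False) (fun p hp => ?_) hf
  exfalso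
  have key : ∀ α : Ix, ∃ n : γ.ToType, ∃ q : Cd, q ≤ p ∧
      Fc q ![onN Cd n.toOrd.1, iN α, φ] (fun _ E v => Rel E (v 2) (v 1) (v 0)) := by
    intro α
    obtain ⟨g', hg', u, hu⟩ := exists_gen_fin p ![onN Cd kp, onN Cd γ, φ, iN α]
    have h0 : g'.Den (onN Cd kp) (u 0) := hu 0
    have h1 : g'.Den (onN Cd γ) (u 1) := hu 1
    have h2 : g'.Den φ (u 2) := hu 2
    have h3 : g'.Den (iN α) (u 3) := hu 3
    have hinj : IsInj g'.E (u 2) (u 0) (u 1) := hp g' hg' ![u 0, u 1, u 2] (den3 h0 h1 h2)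
    obtain ⟨y, hy, hxy, -⟩ := hinj.1 (u 3) ((mem_l h0 _).2 ⟨α, h3⟩)
    obtain ⟨η, hη, hyη⟩ := (den_onN h1 y).1 hy
    obtain ⟨n, hn⟩ : ∃ n : γ.ToType, n.toOrd.1 = η := ⟨ToType.mk ⟨η, hη⟩, by simp [ToType.toOrd]⟩
    rw [← hn] at hyη
    obtain ⟨r, hr, hfr⟩ := (Fc.truth (v := ![onN Cd n.toOrd.1, iN α, φ])
      (a := ![y, u 3, u 2]) (dfn_rel 2 1 0) (den3 hyη h3 h2)).1 hxy
    obtain ⟨r', hr', h4, h5⟩ := g'.dir r hr p hg'
    exact ⟨n, r', h5, hfr.mono h4⟩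
  choose n q hqp hq using key
  obtain ⟨k, hk⟩ := Cardinal.exists_uncountable_fiber n hγc
  have hle : Cardinal.mk Om ≤ Cardinal.mk (n ⁻¹' {k}) := by
    rw [om_card, ← Cardinal.succ_aleph0, Order.succ_le_iff]
    exact Cardinal.aleph0_lt_mk_iff.2 hk
  obtain ⟨e⟩ := hle
  obtain ⟨i, j, hij, r, hr1, hr2⟩ := cd_ccc (fun i => q (e i).1)
  have hei : n (e i).1 = k := (e i).2
  have hej : n (e j).1 = k := (e j).2
  obtain ⟨g', hg', u, hu⟩ := exists_gen_fin r ![onN Cd kp, onN Cd γ, φ,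
    iN (e i).1, iN (e j).1, onN Cd k.toOrd.1]
  have h0 : g'.Den (onN Cd kp) (u 0) := hu 0
  have h1 : g'.Den (onN Cd γ) (u 1) := hu 1
  have h2 : g'.Den φ (u 2) := hu 2
  have h3 : g'.Den (iN (e i).1) (u 3) := hu 3
  have h4 : g'.Den (iN (e j).1) (u 4) := hu 4
  have h5 : g'.Den (onN Cd k.toOrd.1) (u 5) := hu 5
  have hinj : IsInj g'.E (u 2) (u 0) (u 1) :=
    hp g' (g'.up r hg' p (le_trans hr1 (hqp _))) ![u 0, u 1, u 2] (den3 h0 h1 h2)
  have hki : g'.Den (onN Cd (n (e i).1).toOrd.1) (u 5) := by rw [hei]; exact h5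
  have hkj : g'.Den (onN Cd (n (e j).1).toOrd.1) (u 5) := by rw [hej]; exact h5
  have e1 : Rel g'.E (u 2) (u 3) (u 5) :=
    hq (e i).1 g' (g'.up r hg' _ hr1) ![u 5, u 3, u 2] (den3 hki h3 h2)
  have e2 : Rel g'.E (u 2) (u 4) (u 5) :=
    hq (e j).1 g' (g'.up r hg' _ hr2) ![u 5, u 4, u 2] (den3 hkj h4 h2)
  have e3 : u 3 = u 4 := hinj.2 _ _ _ ((mem_l h0 _).2 ⟨_, h3⟩)
    ((mem_l h0 _).2 ⟨_, h4⟩) e1 e2
  rw [e3] at h3
  exact hij (e.injective (Subtype.ext (iN_inj h3 h4)))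

theorem not_sizeLe_kp {w l : g.M} (hw : g.Den (onN Cd ω) w) (hl : g.Den (onN Cd kp) l) :
    ¬ SizeLe g.E l w := by
  refine (isCard_kp hl).2 w ((onN_mem_iff hw hl).2 ?_)
  rw [show kp = (Cardinal.continuum.{0}).ord from rfl, Cardinal.lt_ord, card_omega0]
  exact Cardinal.aleph0_lt_continuum

end Pool.Agent.H51.Hfc
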