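import Pool.Agent.H90.SN.Cohen
import Pool.Agent.H90.SN.GenSp

/-!
# Finite partial functions `κ × κ → 2`, `κ` the continuum

`Ix` is the initial ordinal `κ` of the size of the continuum, `Cd` the set of finite partial functions
from `Ix × Ix` to `Bool`, stronger conditions are smaller.
-/

set_option autoImplicit false

namespace Pool.Agent.H51.Hfc

open Pool.Agent.H90.SN

/-- the index set -/
abbrev Ix : Type := (Cardinal.continuum.{0}).ord.ToType

/-- finite partial functions -/
structure Cd where
  /-- the value -/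
  f : Ix → Ix → Option Bool
  fin : {x : Ix × Ix | f x.1 x.2 ≠ none}.Finite

theorem Cd.ext' {p q : Cd} (h : ∀ a b, p.f a b = q.f a b) : p = q := by
  cases p; cases q
  simp only [Cd.mk.injEq]
  funext a b
  exact h a b

instance : PartialOrder Cd where
  le q p := ∀ a b v, p.f a b = some v → q.f a b = some v
  le_refl _ := fun _ _ _ h => h
  le_trans _ _ _ h h' := fun a b v hv => h a b v (h' a b v hv)
  le_antisymm p q h h' := by
    refine Cd.ext' fun a b => ?_
    cases hp : p.f a b with
    | some v => exact (h' a b v hp).symm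
    | none =>
      cases hq : q.f a b with
      | some v => exact absurd (h a b v hq) (by rw [hp]; simp)
      | none => rfl

theorem Cd.le_def {p q : Cd} : q ≤ p ↔ ∀ a b v, p.f a b = some v → q.f a b = some v := Iff.rfl

instance : OrderTop Cd where
  top := ⟨fun _ _ => none, by simp⟩
  le_top _ := fun _ _ _ h => by cases h

instance : Nonempty Cd := ⟨⊤⟩

/-- the condition `q` uses only elements of `S` -/
def SuppC (q : Cd) (S : Set Ix) : Prop := ∀ a b, q.f a b ≠ none → a ∈ S ∧ b ∈ S

theorem SuppC.mono {q : Cd} {S T : Set Ix} (h : SuppC q S) (hST : S ⊆ T) : SuppC q T :=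
  fun a b hab => ⟨hST (h a b hab).1, hST (h a b hab).2⟩

/-- the elements of `Ix` used by `q` -/
def Cd.sup (q : Cd) : Set Ix := {a | ∃ b, q.f a b ≠ none ∨ q.f b a ≠ none}

theorem Cd.sup_finite (q : Cd) : q.sup.Finite := by
  refine ((q.fin.image Prod.fst).union (q.fin.image Prod.snd)).subset ?_
  rintro a ⟨b, h | h⟩
  · exact Or.inl ⟨(a, b), h, rfl⟩
  · exact Or.inr ⟨(b, a), h, rfl⟩

theorem suppC_sup (q : Cd) : SuppC q q.sup := fun a b h => ⟨⟨b, Or.inl h⟩, ⟨a, Or.inr h⟩⟩

theorem suppC_iff {q : Cd} {S : Set Ix} : SuppC q S ↔ q.sup ⊆ S := by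
  constructor
  · rintro h a ⟨b, hb | hb⟩
    · exact (h a b hb).1
    · exact (h b a hb).2
  · intro h
    exact (suppC_sup q).mono h

open Classical in
/-- the restriction of `q` to `S × S` -/
noncomputable def Cd.restr (q : Cd) (S : Set Ix) : Cd where
  f a b := if a ∈ S ∧ b ∈ S then q.f a b else none
  fin := q.fin.subset fun x hx => by
    simp only [Set.mem_ofPred_eq] at hx ⊢
    split_ifs at hx with h
    · exact hx
    · exact absurd rfl hx

theorem Cd.restr_of_mem {q : Cd} {S : Set Ix} {a b : Ix} (ha : a ∈ S) (hb : b ∈ S) :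
    (q.restr S).f a b = q.f a b := by simp [Cd.restr, ha, hb]

theorem Cd.le_restr (q : Cd) (S : Set Ix) : q ≤ q.restr S := by
  intro a b v h
  simp only [Cd.restr] at h
  split_ifs at h with h'
  · exact h

theorem suppC_restr (q : Cd) (S : Set Ix) : SuppC (q.restr S) S := by
  intro a b h
  simp only [Cd.restr] at h
  split_ifs at h with h'
  · exact h'
  · exact absurd rfl h

open Classical in
/-- `q` with the values on `C` replaced by those of `g` (for finite `C`) -/
noncomputable def Cd.upd (q : Cd) (C : Set (Ix × Ix)) (hC : C.Finite)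
    (g : Ix → Ix → Option Bool) : Cd where
  f a b := if (a, b) ∈ C then g a b else q.f a b
  fin := (q.fin.union hC).subset fun x hx => by
    simp only [Set.mem_ofPred_eq] at hx
    split_ifs at hx with h
    · exact Or.inr h
    · exact Or.inl hx

theorem Cd.upd_of_mem {q : Cd} {C : Set (Ix × Ix)} {hC : C.Finite} {g : Ix → Ix → Option Bool}
    {a b : Ix} (h : (a, b) ∈ C) : (q.upd C hC g).f a b = g a b := by simp [Cd.upd, h]

theorem Cd.upd_of_notMem {q : Cd} {C : Set (Ix × Ix)} {hC : C.Finite}
    {g : Ix → Ix → Option Bool} {a b : Ix} (h : (a, b) ∉ C) :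
    (q.upd C hC g).f a b = q.f a b := by simp [Cd.upd, h]

/-- the union of two conditions, `p` winning -/
def Cd.join (p q : Cd) : Cd where
  f a b := (p.f a b).or (q.f a b)
  fin := (p.fin.union q.fin).subset fun x hx => by
    simp only [Set.mem_ofPred_eq, Set.mem_union] at hx ⊢
    by_contra hcon
    push Not at hcon
    rw [hcon.1, hcon.2] at hx
    exact hx rfl

theorem Cd.join_le_left (p q : Cd) : p.join q ≤ p := by
  intro a b v h
  simp [Cd.join, h]

theorem Cd.join_le_right {p q : Cd}
    (h : ∀ a b v v', p.f a b = some v → q.f a b = some v' → v = v') : p.join q ≤ q := by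
  intro a b v hv
  cases hp : p.f a b with
  | none => simp [Cd.join, hp, hv]
  | some v' => simp [Cd.join, hp, h a b v' v hp hv]

theorem cd_ccc : IsCcc Cd := by
  classical
  intro p
  obtain ⟨i, j, hij, h⟩ := cohen_ccc (fun i => (p i).fin.toFinset)
    (fun i (x : Ix × Ix) => (p i).f x.1 x.2)
  refine ⟨i, j, hij, (p i).join (p j), Cd.join_le_left _ _, Cd.join_le_right ?_⟩
  intro a b v v' hv hv'
  have h1 := h (a, b) (by simp [hv]) (by simp [hv'])
  simp only [hv, hv', Option.some.injEq] at h1
  exact h1

/-- there are only countably many conditions with support in a countable set -/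
theorem countable_suppC {S : Set Ix} (hS : S.Countable) : {q : Cd | SuppC q S}.Countable := by
  let G : Cd → Set (Ix × Ix × Bool) := fun q => {x | q.f x.1 x.2.1 = some x.2.2}
  have hG : Function.Injective G := by
    intro p q h
    have h1 : ∀ a b v, p.f a b = some v ↔ q.f a b = some v := by
      intro a b v
      have : ((a, b, v) : Ix × Ix × Bool) ∈ G p ↔ (a, b, v) ∈ G q := by rw [h]
      exact this
    refine le_antisymm (fun a b v hv => (h1 a b v).2 hv) (fun a b v hv => (h1 a b v).1 hv)
  have h2 : (S ×ˢ S ×ˢ (Set.univ : Set Bool)).Countable :=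
    hS.prod (hS.prod Set.countable_univ)
  have hmaps : Set.MapsTo G {q : Cd | SuppC q S}
      {t | t.Finite ∧ t ⊆ S ×ˢ S ×ˢ Set.univ} := by
    intro q hq
    refine ⟨?_, ?_⟩
    · refine ((q.fin.prod (Set.finite_univ (α := Bool))).image
        (fun x => (x.1.1, x.1.2, x.2))).subset ?_
      rintro ⟨a, b, v⟩ hx
      refine ⟨((a, b), v), ⟨?_, trivial⟩, rfl⟩
      have : q.f a b = some v := hx
      simp [this]
    · rintro ⟨a, b, v⟩ hx
      have h3 : q.f a b = some v := hx
      have := hq a b (by simp [h3])
      exact ⟨this.1, this.2, trivial⟩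
  exact hmaps.countable_of_injOn hG.injOn (Set.countable_ofPred_finite_subset h2)

end Pool.Agent.H51.Hfc
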