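import Pool.Agent.H51.Hfc.Val

/-!
# Closed countable sets of indices (module HFC-CLOSED)

`φ b s` stands for: `s` forces that the `n`-tuple `b` is in a certain family.  A set `S` of indices is
closed for `φ` if it contains the supports of the codes of its elements and reflects the existence of
tuples with given finitely many values.

`exists_closed`: closing off.  Let `R = Ix ⊕ (Cd × Finset Ix × Finset Ix × (Fin n → Finset Ix))`; a request
`x : R` has a finite support `Rs x ⊆ Ix` (`{β}`, or the union of `q.sup`, `E`, `T` and the `e i`) and a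
countable answer `W x ⊆ Ix` (`supp (NN β)`, or `q'.sup ∪ Set.range b` for some chosen `q'`, `b` as in `refl`, if
there are any, `∅` otherwise).  For countable `S` there are only countably many requests with
`Rs x ⊆ S` (`countable_suppC`, `suppC_iff`, `Set.countable_ofPred_finite_subset`, `Set.countable_univ_pi`).
Let `S₀ ⊆ S₁ ⊆ …`, `Sₖ₊₁ = Sₖ ∪ ⋃ {W x | Rs x ⊆ Sₖ}` and `S = ⋃ₖ Sₖ`; since `Rs x` is finite, `Rs x ⊆ S` implies
`Rs x ⊆ Sₖ` for some `k`.
-/

set_option autoImplicit false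

namespace Pool.Agent.H51.Hfc

variable {n : ℕ}

structure Closed (φ : (Fin n → Ix) → Cd → Prop) (S : Set Ix) : Prop where
  supp : ∀ β ∈ S, supp (NN β) ⊆ S
  refl : ∀ q, SuppC q S → ∀ E T : Finset Ix, ↑E ⊆ S → ↑T ⊆ S → ∀ e : Fin n → Finset Ix,
    (∀ i, ↑(e i) ⊆ S) →
    (∃ q' ≤ q, ∃ b : Fin n → Ix, (∀ i, b i ∉ T) ∧ φ b q' ∧
      ∀ i, ∀ α ∈ E, Val (b i) α (decide (α ∈ e i)) q') →
    ∃ q' ≤ q, ∃ b : Fin n → Ix, SuppC q' S ∧ (∀ i, b i ∈ S) ∧ (∀ i, b i ∉ T) ∧ φ b q' ∧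
      ∀ i, ∀ α ∈ E, Val (b i) α (decide (α ∈ e i)) q'

/-- closing off a countable set under countably many requests -/
theorem closing_off {R : Type} {I : Type} (Rs W : R → Set I) (hfin : ∀ x, (Rs x).Finite)
    (hcnt : ∀ x, (W x).Countable) (hR : ∀ S : Set I, S.Countable → {x : R | Rs x ⊆ S}.Countable)
    {S₀ : Set I} (h : S₀.Countable) :
    ∃ S, S₀ ⊆ S ∧ S.Countable ∧ ∀ x, Rs x ⊆ S → W x ⊆ S := by
  classical
  let F : Set I → Set I := fun S => S ∪ ⋃ x ∈ {x : R | Rs x ⊆ S}, W x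
  let T : ℕ → Set I := fun k => Nat.rec S₀ (fun _ S => F S) k
  have hT : ∀ k, (T k).Countable := by
    intro k
    induction k with
    | zero => exact h
    | succ k ih =>
      change (T k ∪ ⋃ x ∈ {x : R | Rs x ⊆ T k}, W x).Countable
      exact ih.union ((hR _ ih).biUnion (fun x _ => hcnt x))
  have hmono : Monotone T := monotone_nat_of_le_succ (fun k => Set.subset_union_left)
  refine ⟨⋃ k, T k, Set.subset_iUnion T 0, Set.countable_iUnion hT, ?_⟩
  intro x hx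
  have h1 : ∃ k, Rs x ⊆ T k := by
    have h2 : ∀ a ∈ (hfin x).toFinset, ∃ k, a ∈ T k := by
      intro a ha
      exact Set.mem_iUnion.1 (hx ((hfin x).mem_toFinset.1 ha))
    choose! κ hκ using h2
    refine ⟨(hfin x).toFinset.sup κ, fun a ha => ?_⟩
    have ha' := (hfin x).mem_toFinset.2 ha
    exact hmono (Finset.le_sup ha') (hκ a ha')
  obtain ⟨k, hk⟩ := h1
  have h2 : W x ⊆ T (k + 1) := by
    change W x ⊆ T k ∪ ⋃ x ∈ {x : R | Rs x ⊆ T k}, W x
    exact (Set.subset_biUnion_of_mem (u := W) (show x ∈ {x : R | Rs x ⊆ T k} from hk)).trans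
      Set.subset_union_right
  exact h2.trans (Set.subset_iUnion T (k + 1))

theorem countable_finsets {I : Type} {S : Set I} (hS : S.Countable) :
    {E : Finset I | (↑E : Set I) ⊆ S}.Countable := by
  have h1 : Set.MapsTo (fun E : Finset I => (↑E : Set I)) {E : Finset I | (↑E : Set I) ⊆ S}
      {t | t.Finite ∧ t ⊆ S} := fun E hE => ⟨E.finite_toSet, hE⟩
  exact h1.countable_of_injOn Finset.coe_injective.injOn (Set.countable_ofPred_finite_subset hS)

theorem exists_closed (φ : (Fin n → Ix) → Cd → Prop) {S₀ : Set Ix} (h : S₀.Countable) :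
    ∃ S, S₀ ⊆ S ∧ S.Countable ∧ Closed φ S := by
  classical
  let Rs : Ix ⊕ (Cd × Finset Ix × Finset Ix × (Fin n → Finset Ix)) → Set Ix := fun x =>
    Sum.elim (fun β => {β}) (fun y => y.1.sup ∪ ↑y.2.1 ∪ ↑y.2.2.1 ∪ ⋃ i, (↑(y.2.2.2 i) : Set Ix)) x
  have hans : ∀ y : Cd × Finset Ix × Finset Ix × (Fin n → Finset Ix), ∃ W : Set Ix, W.Countable ∧
      ((∃ q' ≤ y.1, ∃ b : Fin n → Ix, (∀ i, b i ∉ y.2.2.1) ∧ φ b q' ∧
        ∀ i, ∀ α ∈ y.2.1, Val (b i) α (decide (α ∈ y.2.2.2 i)) q') →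
      ∃ q' ≤ y.1, ∃ b : Fin n → Ix, q'.sup ⊆ W ∧ (∀ i, b i ∈ W) ∧ (∀ i, b i ∉ y.2.2.1) ∧ φ b q' ∧
        ∀ i, ∀ α ∈ y.2.1, Val (b i) α (decide (α ∈ y.2.2.2 i)) q') := by
    intro y
    by_cases hy : ∃ q' ≤ y.1, ∃ b : Fin n → Ix, (∀ i, b i ∉ y.2.2.1) ∧ φ b q' ∧
        ∀ i, ∀ α ∈ y.2.1, Val (b i) α (decide (α ∈ y.2.2.2 i)) q'
    · obtain ⟨q', hq', b, hb1, hb2, hb3⟩ := hy
      refine ⟨q'.sup ∪ Set.range b, q'.sup_finite.countable.union (Set.countable_range b), fun _ =>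
        ⟨q', hq', b, Set.subset_union_left, fun i => Or.inr ⟨i, rfl⟩, hb1, hb2, hb3⟩⟩
    · exact ⟨∅, Set.countable_empty, fun h => absurd h hy⟩
  choose W2 hW2c hW2 using hans
  obtain ⟨S, hS1, hS2, hS3⟩ := closing_off Rs (fun x => Sum.elim (fun β => supp (NN β)) W2 x)
    (by
      rintro (β | y)
      · exact Set.finite_singleton β
      · exact ((y.1.sup_finite.union y.2.1.finite_toSet).union y.2.2.1.finite_toSet).union
          (Set.finite_iUnion (fun i => (y.2.2.2 i).finite_toSet)))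
    (by
      rintro (β | y)
      · exact supp_countable (NN_countable β)
      · exact hW2c y)
    (by
      intro S hS
      have h1 : {x | Rs x ⊆ S} ⊆ Sum.inl '' S ∪ Sum.inr '' ({q | SuppC q S} ×ˢ
          {E : Finset Ix | (↑E : Set Ix) ⊆ S} ×ˢ {E : Finset Ix | (↑E : Set Ix) ⊆ S} ×ˢ
          Set.univ.pi (fun _ : Fin n => {E : Finset Ix | (↑E : Set Ix) ⊆ S})) := by
        rintro (β | y) hx
        · exact Or.inl ⟨β, hx rfl, rfl⟩
        · have hx' : y.1.sup ∪ ↑y.2.1 ∪ ↑y.2.2.1 ∪ ⋃ i, (↑(y.2.2.2 i) : Set Ix) ⊆ S := hx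
          refine Or.inr ⟨y, ⟨?_, ?_, ?_, ?_⟩, rfl⟩
          · exact suppC_iff.2 (fun a ha => hx' (Or.inl (Or.inl (Or.inl ha))))
          · exact fun a ha => hx' (Or.inl (Or.inl (Or.inr ha)))
          · exact fun a ha => hx' (Or.inl (Or.inr ha))
          · intro i _ a ha
            exact hx' (Or.inr (Set.mem_iUnion.2 ⟨i, ha⟩))
      refine Set.Countable.mono h1 ?_
      refine (hS.image _).union (Set.Countable.image ?_ _)
      exact (countable_suppC hS).prod ((countable_finsets hS).prod ((countable_finsets hS).prod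
        (Set.countable_univ_pi (fun _ => countable_finsets hS))))) h
  refine ⟨S, hS1, hS2, ⟨?_, ?_⟩⟩
  · intro β hβ
    exact hS3 (Sum.inl β) (Set.singleton_subset_iff.2 hβ)
  · intro q hq E T hE hT e he hex
    have h1 : Rs (Sum.inr (q, E, T, e)) ⊆ S := by
      change q.sup ∪ ↑E ∪ ↑T ∪ ⋃ i, (↑(e i) : Set Ix) ⊆ S
      exact Set.union_subset (Set.union_subset (Set.union_subset (suppC_iff.1 hq) hE) hT)
        (Set.iUnion_subset he)
    have h2 : W2 (q, E, T, e) ⊆ S := hS3 (Sum.inr (q, E, T, e)) h1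
    obtain ⟨q', hq', b, hb0, hb1, hb2, hb3, hb4⟩ := hW2 (q, E, T, e) hex
    exact ⟨q', hq', b, suppC_iff.2 (hb0.trans h2), fun i => h2 (hb1 i), hb2, hb3, hb4⟩

/-- an increasing sequence of countable closed sets; `S (k + 1)` is closed also for the subfamily of the
tuples avoiding `S k` -/
structure Layers (φ : (Fin n → Ix) → Cd → Prop) (S : ℕ → Set Ix) : Prop where
  cnt : ∀ k, (S k).Countable
  mono : Monotone S
  c0 : Closed φ (S 0)
  cs : ∀ k, Closed (fun b s => φ b s ∧ ∀ i, b i ∉ S k) (S (k + 1))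

theorem exists_layers (φ : (Fin n → Ix) → Cd → Prop) : ∃ S, Layers φ S := by
  obtain ⟨S0, -, h1, h2⟩ := exists_closed φ (S₀ := ∅) Set.countable_empty
  have h3 : ∀ S : {S : Set Ix // S.Countable}, ∃ S' : {S : Set Ix // S.Countable},
      S.1 ⊆ S'.1 ∧ Closed (fun b s => φ b s ∧ ∀ i, b i ∉ S.1) S'.1 := by
    intro S
    obtain ⟨S', h4, h5, h6⟩ := exists_closed (fun b s => φ b s ∧ ∀ i, b i ∉ S.1) S.2
    exact ⟨⟨S', h5⟩, h4, h6⟩
  choose F h4 h5 using h3
  let S : ℕ → {S : Set Ix // S.Countable} := fun k => Nat.rec ⟨S0, h1⟩ (fun _ x => F x) k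
  exact ⟨fun k => (S k).1, fun k => (S k).2, monotone_nat_of_le_succ fun k => h4 (S k), h2,
    fun k => h5 (S k)⟩

end Pool.Agent.H51.Hfc
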