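import Pool.Agent.H51.Hfc.Step

/-!
# Discrete sets of points are countable, and they are coded
-/

set_option autoImplicit false

namespace Pool.Agent.H51.Hfc

open Pool.Agent.H90.SN

variable {ψ : Ix → Cd → Prop} {p : Cd}

/-- `p` forces that the set of the points `x_d` with `ψ d` is discrete -/
def DiscF (ψ : Ix → Cd → Prop) (p : Cd) : Prop :=
  ∀ d, ∀ s ≤ p, ψ d s → ∃ r ≤ s, ∃ E : Finset Ix, ∃ e : Ix → Bool, (∀ α ∈ E, Val d α (e α) r) ∧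
    ∀ d', ∀ r' ≤ r, ψ d' r' → (∀ α ∈ E, Val d' α (e α) r') → d' = d

theorem disc_countable (hmono : ∀ d s s', ψ d s → s' ≤ s → ψ d s') (hd : DiscF ψ p) :
    ∃ S : Set Ix, S.Countable ∧ ∀ d, ∀ s ≤ p, ψ d s → d ∈ S := by
  obtain ⟨S, -, hS, hcl⟩ := exists_closed (n := 1) (fun b s => ψ (b 0) s)
    (S₀ := ∅) Set.countable_empty
  refine ⟨S, hS, fun d s hs hψ => ?_⟩
  by_contra hdS
  obtain ⟨r, hr, E, e, h1, h2⟩ := hd d s hs hψ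
  obtain ⟨r', hr', b', s', -, h3, h4, -, h5, h6⟩ := step hcl
    (fun b s _ => Function.injective_of_subsingleton b) (b := fun _ => d) (fun _ => hdS)
    (hmono d s r hψ hr) E ∅ (fun _ => e) (fun _ => h1)
  have h7 := h2 (b' 0) r' hr' (hmono _ _ _ h5 h3) (h6 0)
  exact hdS (h7 ▸ h4 0)

/-- A discrete set of points is `D_β` for some good `β`. -/
theorem exists_code (hmono : ∀ d s s', ψ d s → s' ≤ s → ψ d s') (hd : DiscF ψ p) :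
    ∃ β, Good β ∧ (∀ d s, s ≤ p → ψ d s → d < β) ∧
      ∀ d, ∀ q ≤ p, ψ d q → ∃ r ≤ q, InD β d r := by
  obtain ⟨S, hS, h1⟩ := disc_countable hmono hd
  have h2 : ∀ d, ∃ A : Set Cd, A.Countable ∧ (∀ t ∈ A, t ≤ p ∧ ψ d t) ∧
      ∀ q ≤ p, ψ d q → ∃ r ≤ q, ∃ t ∈ A, r ≤ t := by
    intro d
    let D : Set Cd := {t | (t ≤ p ∧ ψ d t) ∨ ∀ q ≤ t, ¬ (q ≤ p ∧ ψ d q)}
    have hD : Predense D := by
      intro q
      by_cases h : ∃ r ≤ q, r ≤ p ∧ ψ d r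
      · obtain ⟨r, hr, h⟩ := h
        exact ⟨r, Or.inl h, r, hr, le_rfl⟩
      · push Not at h
        exact ⟨q, Or.inr fun r hr h' => h r hr h'.1 h'.2, q, le_rfl, le_rfl⟩
    obtain ⟨A, hA, hAc, hAp⟩ := exists_countable cd_ccc hD
    refine ⟨A ∩ {t | t ≤ p ∧ ψ d t}, hAc.mono Set.inter_subset_left, fun t ht => ht.2, ?_⟩
    intro q hq hψ
    obtain ⟨t, ht, r, hr1, hr2⟩ := hAp q
    rcases hA ht with h | h
    · exact ⟨r, hr1, t, ⟨ht, h⟩, hr2⟩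
    · exact absurd ⟨hr1.trans hq, hmono _ _ _ hψ hr1⟩ (h r hr2)
  choose A hA1 hA2 hA3 using h2
  let c : Set (Ix × Cd) := ⋃ d ∈ S, (fun t => (d, t)) '' A d
  have hmem : ∀ d t, (d, t) ∈ c ↔ d ∈ S ∧ t ∈ A d := by
    intro d t
    simp only [c, Set.mem_iUnion, Set.mem_image, Prod.mk.injEq, exists_prop]
    constructor
    · rintro ⟨d', hd', t', ht', rfl, rfl⟩
      exact ⟨hd', ht'⟩
    · rintro ⟨h3, h4⟩
      exact ⟨d, h3, t, h4, rfl, rfl⟩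
  have hc : c.Countable := hS.biUnion fun d _ => (hA1 d).image _
  obtain ⟨β, hβ, hsup⟩ := exists_NN hc
  have hcode : ∀ d, ∀ q ≤ p, ψ d q → ∃ r ≤ q, ∃ t, (d, t) ∈ NN β ∧ r ≤ t := by
    intro d q hq hψ
    obtain ⟨r, hr, t, ht, hrt⟩ := hA3 d q hq hψ
    exact ⟨r, hr, t, by rw [hβ, hmem]; exact ⟨h1 d q hq hψ, ht⟩, hrt⟩
  have hgood : Good β := by
    rw [good_iff, hβ]
    refine ⟨hsup, fun d t hdt q hq => ?_⟩
    rw [hmem] at hdt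
    obtain ⟨h3, h4⟩ := hA2 d t hdt.2
    obtain ⟨r, hr, E, e, h5, h6⟩ := hd d q (hq.trans h3) (hmono _ _ _ h4 hq)
    refine ⟨r, hr, E, e, h5, fun d' t' hdt' r' hr' hrt' h7 => ?_⟩
    rw [hmem] at hdt'
    exact h6 d' r' hr' (hmono _ _ _ (hA2 d' t' hdt'.2).2 hrt') h7
  refine ⟨β, hgood, fun d s hs hψ => ?_, fun d q hq hψ => ?_⟩
  · obtain ⟨r, -, t, ht, -⟩ := hcode d s hs hψ
    rw [hβ] at ht
    exact hsup ⟨(d, t), ht, Or.inl rfl⟩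
  · obtain ⟨r, hr, t, ht, hrt⟩ := hcode d q hq hψ
    exact ⟨r, hr, hgood, t, ht, hrt⟩

end Pool.Agent.H51.Hfc
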