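import Pool.Agent.H51.Hfc.FinD
import Pool.Agent.H51.Hfc.Disc

/-!
# The space is not dually discrete in the generic structure
-/

set_option autoImplicit false

namespace Pool.Agent.H51.Hfc

open Pool.Agent.H90.SN Pool.Agent.H90.Frc Ordinal

variable {g : Gen Cd}

theorem isNbhd_gen {w l X U : g.M} (hw : g.Den (onN Cd ω) w)
    (hl : g.Den (onN Cd kp) l) (hX : g.Den XN X) (hU : g.Den UN U) : IsNbhd g.E w l X U := by
  intro x hx
  obtain ⟨d, hd⟩ := (mem_XN hX x).1 hx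
  refine Gen.tn (v := ![onN Cd ω, onN Cd kp, XN, UN, xN d]) (a := ![w, l, X, U, x])
    (den5 hw hl hX hU hd) Dfn.true (S := fun _ E v => Rel E (v 3) (v 4) (v 4) ∧
      ∀ y, E y (v 2) → Rel E (v 3) (v 4) y → ∃ a, IsSub E a (v 1) ∧ IsFin E (v 0) a ∧
        ∀ z, E z (v 2) → Agree E a y z → Rel E (v 3) (v 4) z)
    (.and (dfn_rel _ _ _) (.all (.imp (.mem _ _) (.imp (dfn_rel _ _ _)
      (.ex (.and (dfn_isSub _ _) (.and (dfn_isFin _ _) (.all (.imp (.mem _ _)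
      (.imp (dfn_agree _ _ _) (dfn_rel _ _ _)))))))))))
    (L := {iN d}) (Set.countable_singleton _) ?_ trivial
  clear hw hl hX hU hx hd x U X l w
  intro g hL u hu _
  obtain ⟨z, hz⟩ := hL _ rfl
  have hw : g.Den (onN Cd ω) (u 0) := hu 0
  have hl : g.Den (onN Cd kp) (u 1) := hu 1
  have hX : g.Den XN (u 2) := hu 2
  have hU : g.Den UN (u 3) := hu 3
  have hd : g.Den (xN d) (u 4) := hu 4
  refine ⟨(rel_UN' hU hd hd).2 ⟨⊤, g.top_mem, val_true.2 (Or.inl rfl)⟩, fun y hy hxy => ?_⟩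
  obtain ⟨β, hβ⟩ := (mem_XN hX y).1 hy
  obtain ⟨p, hp, hval⟩ := (rel_UN' hU hd hβ).1 hxy
  obtain ⟨a, ha⟩ := g.zfc.pairing z z
  have ha' : ∀ t, g.E t a ↔ t = z := fun t => by rw [ha]; simp
  refine ⟨a, fun t ht => ?_, isFin_single hw ha', fun y' hy' hag => ?_⟩
  · rw [(ha' t).1 ht]
    exact (mem_l hl z).2 ⟨d, hz⟩
  · obtain ⟨β', hβ'⟩ := (mem_XN hX y').1 hy'
    rw [rel_UN' hU hd hβ']
    have h1 : g.E z y := (mem_xN' hβ hz).2 ⟨p, hp, hval⟩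
    exact (mem_xN' hβ' hz).1 ((hag z ((ha' z).2 rfl)).1 h1)

/-- `s` forces that the point `x_d` is in `τ` -/
def Psi (τ : Name Cd) (d : Ix) (s : Cd) : Prop := Fc s ![xN d, τ] (fun _ E v => E (v 0) (v 1))

/-- a discrete set of points is discrete in the sense of `DiscF` -/
theorem discF_gen {τ : Name Cd} {p : Cd}
    (hp : Fc p ![onN Cd ω, onN Cd kp, τ] (fun _ E v => IsDiscr E (v 0) (v 1) (v 2))) :
    DiscF (Psi τ) p := by
  intro d s hs hψ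
  obtain ⟨g, hg, -, u, hu⟩ := exists_gen_set s ![onN Cd ω, onN Cd kp, τ, xN d]
    (L := ∅) Set.countable_empty
  have hw : g.Den (onN Cd ω) (u 0) := hu 0
  have hl : g.Den (onN Cd kp) (u 1) := hu 1
  have hD : g.Den τ (u 2) := hu 2
  have hd : g.Den (xN d) (u 3) := hu 3
  have hdisc : IsDiscr g.E (u 0) (u 1) (u 2) :=
    hp g (g.up s hg p hs) ![u 0, u 1, u 2] (den3 hw hl hD)
  have hxD : g.E (u 3) (u 2) := hψ g hg ![u 3, u 2] (den2 hd hD)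
  obtain ⟨a, hal, haf, ha⟩ := hdisc (u 3) hxD
  obtain ⟨E, hE1, hE2⟩ := fin_sub hw hl hal haf
  obtain ⟨σ, hσ⟩ := g.exists_den a
  let k := E.card
  let b : Fin k → Ix := fun i => (E.equivFin.symm i).1
  have hbE : ∀ i, b i ∈ E := fun i => (E.equivFin.symm i).2
  have hbs : ∀ α ∈ E, ∃ i, b i = α := fun α hα => ⟨E.equivFin ⟨α, hα⟩, by simp [b]⟩
  have hz : ∀ i, ∃ z, g.Den (iN (b i)) z := fun i => hE1 _ (hbE i)
  choose z hz using hz
  have hDf : Dfn (n := 3 + k) (fun _ E v =>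
      (∀ x, E x (v (Fin.castAdd k 0)) → ∃ i : Fin k, x = v (Fin.natAdd 3 i)) ∧
      ∀ y, E y (v (Fin.castAdd k 2)) → Agree E (v (Fin.castAdd k 0)) (v (Fin.castAdd k 1)) y →
        y = v (Fin.castAdd k 1)) :=
    .and (.all (.imp (.mem _ _) (dfn_exFin fun i => .eq _ _)))
      (.all (.imp (.mem _ _) (.imp (dfn_agree _ _ _) (.eq _ _))))
  have hden : ∀ i, g.Den (Fin.append ![σ, xN d, τ] (fun i => iN (b i)) i)
      (Fin.append ![a, u 3, u 2] z i) := by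
    intro i
    refine Fin.addCases (fun j => ?_) (fun j => ?_) i
    · rw [Fin.append_left, Fin.append_left]
      exact den3 hσ hd hD j
    · rw [Fin.append_right, Fin.append_right]
      exact hz j
  obtain ⟨r0, hr0, hf⟩ := (Fc.truth hDf hden).1 (by
    simp only [Fin.append_left, Fin.append_right]
    refine ⟨fun x hx => ?_, ha⟩
    obtain ⟨α, hα, hxα⟩ := (hE2 x).1 hx
    obtain ⟨i, rfl⟩ := hbs α hα
    exact ⟨i, hxα.unique (hz i)⟩)
  obtain ⟨r1, hr1, h1, h2⟩ := g.dir r0 hr0 s hg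
  obtain ⟨r, hr, e, he⟩ := exists_vals d E r1
  refine ⟨r, hr.trans h2, E, e, he, fun d' r' hr' hψ' hval => ?_⟩
  obtain ⟨g', hg', hL, u', hu'⟩ := exists_gen_set r'
    (Fin.append ![σ, xN d, τ] (fun i => iN (b i))) (L := {xN d'}) (Set.countable_singleton _)
  obtain ⟨y, hy⟩ := hL _ rfl
  obtain ⟨h3, h4⟩ := hf g' (g'.up r' hg' r0 (hr'.trans (hr.trans h1))) u' hu'
  have hd' : g'.Den (xN d) (u' (Fin.castAdd k 1)) := by
    have := hu' (Fin.castAdd k 1)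
    rwa [Fin.append_left] at this
  have hD' : g'.Den τ (u' (Fin.castAdd k 2)) := by
    have := hu' (Fin.castAdd k 2)
    rwa [Fin.append_left] at this
  have hyD : g'.E y (u' (Fin.castAdd k 2)) :=
    hψ' g' hg' ![y, u' (Fin.castAdd k 2)] (den2 hy hD')
  have h5 : y = u' (Fin.castAdd k 1) := by
    refine h4 y hyD fun x hx => ?_
    obtain ⟨i, rfl⟩ := h3 x hx
    have hi : g'.Den (iN (b i)) (u' (Fin.natAdd 3 i)) := by
      have := hu' (Fin.natAdd 3 i)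
      rwa [Fin.append_right] at this
    rw [mem_xN_iff hd' hi (g'.up r' hg' r hr') (he _ (hbE i)),
      mem_xN_iff hy hi hg' (hval _ (hbE i))]
  rw [h5] at hy
  exact xN_inj hy hd'

theorem not_duallyDiscrete_gen {w l X U : g.M} (hw : g.Den (onN Cd ω) w)
    (hl : g.Den (onN Cd kp) l) (hX : g.Den XN X) (hU : g.Den UN U) :
    ¬ DuallyDiscrete g.E w l X := by
  intro h
  obtain ⟨D, hDX, hD, hcov⟩ := h U (isNbhd_gen hw hl hX hU)
  obtain ⟨τ, hτ⟩ := g.exists_den D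
  have hR : Dfn (n := 5) (fun _ E v => IsSub E (v 4) (v 2) ∧ IsDiscr E (v 0) (v 1) (v 4) ∧
      ∀ x, E x (v 2) → ∃ d, E d (v 4) ∧ Rel E (v 3) d x) :=
    .and (dfn_isSub _ _) (.and (dfn_isDiscr _ _ _) (.all (.imp (.mem _ _) (.ex (.and (.mem _ _)
      (dfn_rel _ _ _))))))
  obtain ⟨p, -, hp⟩ := (Fc.truth (v := ![onN Cd ω, onN Cd kp, XN, UN, τ])
    (a := ![w, l, X, U, D]) hR (den5 hw hl hX hU hτ)).1 ⟨hDX, hD, hcov⟩
  clear hw hl hX hU h hDX hD hcov hτ D U X l w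
  have hdisc : DiscF (Psi τ) p := by
    refine discF_gen (Fc.with_names (dfn_isDiscr 0 1 2) (L := {XN, UN})
      (Set.toFinite _).countable ?_)
    intro g' hg' hL u hu
    obtain ⟨X', hX'⟩ := hL XN (Or.inl rfl)
    obtain ⟨U', hU'⟩ := hL UN (Or.inr rfl)
    exact (hp g' hg' ![u 0, u 1, X', U', u 2] (den5 (hu 0) (hu 1) hX' hU' (hu 2))).2.1
  obtain ⟨β, -, h1, h2⟩ := exists_code (ψ := Psi τ) (fun d s s' h hs => h.mono hs) hdisc
  obtain ⟨g, hg, hL, u, hu⟩ := exists_gen_set p ![onN Cd ω, onN Cd kp, XN, UN, τ]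
    (L := {xN β}) (Set.countable_singleton _)
  obtain ⟨x, hx⟩ := hL _ rfl
  have hX : g.Den XN (u 2) := hu 2
  have hU : g.Den UN (u 3) := hu 3
  have hτ : g.Den τ (u 4) := hu 4
  obtain ⟨hDX, -, hcov⟩ := hp g hg u hu
  obtain ⟨d0, hd0, hrel⟩ := hcov x ((mem_XN hX x).2 ⟨β, hx⟩)
  obtain ⟨δ, hδ⟩ := (mem_XN hX d0).1 (hDX d0 hd0)
  obtain ⟨r, hr, hval⟩ := (rel_UN' hU hδ hx).1 hrel
  obtain ⟨s, hs, hψ⟩ := (Fc.truth (v := ![xN δ, τ]) (a := ![d0, u 4])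
    (R := fun _ E v => E (v 0) (v 1)) (Dfn.mem 0 1) (den2 hδ hτ)).1 hd0
  obtain ⟨r1, hr1, h3, h4⟩ := g.dir r hr s hs
  obtain ⟨r2, -, h5, h6⟩ := g.dir r1 hr1 p hg
  have hψ2 : Psi τ δ r2 := hψ.mono (h5.trans h4)
  obtain ⟨r3, hr3, h7⟩ := h2 δ r2 h6 hψ2
  rcases val_true.1 (hval.mono (h5.trans h3)) with h8 | ⟨h8, -⟩
  · exact lt_irrefl _ (h8 ▸ h1 δ r2 h6 hψ2)
  · exact h8 r3 hr3 h7

end Pool.Agent.H51.Hfc
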