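import Pool.Agent.H51.Hfc.Names

/-!
# Finite sets and enumerations in the generic structure (module HFC-FIND)

* `dfn_exFin`: induction on `k` (`Fin.exists_fin_succ`, `Dfn.or`, `Dfn.const`), then `Dfn.congr`.
* `fin_sub`: some `n ∈ w` (the value of `onN k`, `lt_omega0`) and an injection `f` from `a` to `n`.  The set
  `{z | g.E z n}` is finite (values of `onN j`, `j < k`, `den_onN`, `Gen.Den.unique`), so `{z | g.E z a}` is
  finite (`Set.Finite.of_injOn` for the function chosen from `f`); every `z` in it is the value of `iN α`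
  for some `α` (`mem_l`); take the finset of the chosen `α`.
* `isFin_single`: `n` = the value of `onN 1` (`exists_den_nat`); `ZFC.sizeLe_of_rel` with `R` = True.
* `enum_elems`: `e` gives a bijection between the elements of `n`, i.e. the values of `onN i`, `i < k`
  (all of them are denoted: `den_onN`, `Gen.Den.of_countable` as in `exists_den_nat`, or note that
  the name `onN k` has finite index type), and the elements of `F`, which are values of `iN α`.
  Choose `b i`; strictly increasing by the last clause of `IsEnum`, `onN_mem_iff` and `iN_mem_iff`.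
* `enum_finN`: `enum_elems` gives `b'` with the same range as `b` (`iN_inj`), so `b' = b`
  (`Fin.strictMono_unique`).
* `sizeLe_of_countable`: as `sizeLe_omega_of_countable` in `Pool/Agent/H90/Frc/Tools.lean`: if `τ.idx` is
  empty then `t` has no elements; otherwise let `en : ℕ → τ.idx` be onto and use `Gen.tn` with the name
  `relN (fun i : ℕ => onN Cd i) (fun i => τ.A (en i)) (fun i => τ.r (en i))` and `ZFC.sizeLe_of_surj`.
-/

set_option autoImplicit false

namespace Pool.Agent.H51.Hfc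

open Pool.Agent.H90.SN Pool.Agent.H90.Frc Ordinal

theorem dfn_exFin {n k : ℕ} {R : Fin k → Pred n} (h : ∀ i, Dfn (R i)) :
    Dfn (fun M E v => ∃ i, R i M E v) := by
  induction k with
  | zero => exact (Dfn.const False).congr (fun M E v => by simp)
  | succ k ih =>
    have h1 := ih (R := fun i => R i.succ) (fun i => h i.succ)
    exact ((h 0).or h1).congr (fun M E v => Fin.exists_fin_succ)

variable {g : Gen Cd}

/-- a finite subset of `l` is given by a finite set of indices -/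
theorem fin_sub {w l a : g.M} (hw : g.Den (onN Cd ω) w) (hl : g.Den (onN Cd kp) l)
    (ha : IsSub g.E a l) (hf : IsFin g.E w a) :
    ∃ E : Finset Ix, (∀ α ∈ E, ∃ z, g.Den (iN α) z) ∧ ∀ z, g.E z a ↔ ∃ α ∈ E, g.Den (iN α) z := by
  classical
  obtain ⟨n, hn, f, hf1, hf2⟩ := hf
  obtain ⟨β, hβ, hnβ⟩ := (den_onN hw n).1 hn
  obtain ⟨k, rfl⟩ := lt_omega0.1 hβ
  have hS : {z | g.E z n}.Finite := by
    have h1 : {z | g.E z n} ⊆ ⋃ j ∈ Set.Iio k, {z | g.Den (onN Cd ((j : ℕ) : Ordinal.{0})) z} := by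
      intro z hz
      obtain ⟨γ, hγ, hγz⟩ := (den_onN hnβ z).1 hz
      obtain ⟨j, rfl⟩ := lt_omega0.1 (hγ.trans hβ)
      have hjk : j < k := by exact_mod_cast hγ
      exact Set.mem_biUnion (show j ∈ Set.Iio k from hjk) hγz
    refine Set.Finite.subset ((Set.finite_Iio k).biUnion (fun j _ => ?_)) h1
    exact Set.Subsingleton.finite (fun x hx y hy => Gen.Den.unique hx hy)
  have hf1' : ∀ x : g.M, ∃ y, g.E x a → g.E y n ∧ Rel g.E f x y := by
    intro x
    by_cases hx : g.E x a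
    · obtain ⟨y, h1, h2, -⟩ := hf1 x hx
      exact ⟨y, fun _ => ⟨h1, h2⟩⟩
    · exact ⟨x, fun h => absurd h hx⟩
  choose F hF using hf1'
  have hA : {z | g.E z a}.Finite := by
    refine Set.Finite.of_injOn (f := F) (t := {z | g.E z n}) (fun x hx => (hF x hx).1) ?_ hS
    intro x hx y hy hxy
    have h2 := (hF y hy).2
    rw [← hxy] at h2
    exact hf2 x y (F x) hx hy (hF x hx).2 h2
  have hα : ∀ z : g.M, ∃ α : Ix, g.E z a → g.Den (iN α) z := by
    intro z
    by_cases hz : g.E z a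
    · obtain ⟨α, h1⟩ := (mem_l hl z).1 (ha z hz)
      exact ⟨α, fun _ => h1⟩
    · by_cases hne : Nonempty Ix
      · obtain ⟨α⟩ := hne
        exact ⟨α, fun h => absurd h hz⟩
      · exfalso
        exact ix_not_countable (Set.Subsingleton.countable
          (fun x _ => absurd ⟨x⟩ hne))
  choose A hAα using hα
  refine ⟨hA.toFinset.image A, ?_, ?_⟩
  · intro α hα
    obtain ⟨z, hz, rfl⟩ := Finset.mem_image.1 hα
    exact ⟨z, hAα z (hA.mem_toFinset.1 hz)⟩
  · intro z
    constructor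
    · intro hz
      exact ⟨A z, Finset.mem_image.2 ⟨z, hA.mem_toFinset.2 hz, rfl⟩, hAα z hz⟩
    · rintro ⟨α, hα, hzα⟩
      obtain ⟨z', hz', rfl⟩ := Finset.mem_image.1 hα
      have h1 : g.E z' a := hA.mem_toFinset.1 hz'
      rw [hzα.unique (hAα z' h1)]
      exact h1

theorem isFin_single {w a d : g.M} (hw : g.Den (onN Cd ω) w) (ha : ∀ z, g.E z a ↔ z = d) :
    IsFin g.E w a := by
  obtain ⟨n, hn⟩ := exists_den_nat hw 1
  obtain ⟨o, ho⟩ := exists_den_nat hw 0
  have hon : g.E o n := (onN_mem_iff ho hn).2 (by exact_mod_cast Nat.zero_lt_one)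
  have hel : ∀ y, g.E y n → y = o := by
    intro y hy
    obtain ⟨β, hβ, hyβ⟩ := (den_onN hn y).1 hy
    have hβ0 : β = ((0 : ℕ) : Ordinal.{0}) := by
      have h1 : β < 1 := by simpa using hβ
      have h2 : β = 0 := by
        exact Order.lt_one_iff.1 h1
      rw [h2]
      simp
    rw [hβ0] at hyβ
    exact hyβ.unique ho
  refine ⟨n, (den_onN hw n).2 ⟨_, natCast_lt_omega0 1, hn⟩, ?_⟩
  refine g.zfc.sizeLe_of_rel (n := 0) (R := fun _ _ _ => True) Dfn.true ![] ?_ ?_ ?_
  · intro x _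
    exact ⟨o, hon, trivial⟩
  · intro x y y' _ hy hy' _ _
    rw [hel y hy, hel y' hy']
  · intro x x' y hx hx' _ _ _
    rw [(ha x).1 hx, (ha x').1 hx']

/-- all elements of a natural number are denoted -/
theorem exists_den_lt {n : g.M} {k : ℕ} (hn : g.Den (onN Cd (k : ℕ)) n) {i : ℕ} (hi : i < k) :
    ∃ x, g.Den (onN Cd (i : ℕ)) x := by
  rw [onN_def] at hn
  have hc : Countable ((k : ℕ) : Ordinal.{0}).ToType := by
    rw [← Cardinal.mk_le_aleph0_iff, Cardinal.mk_toType]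
    simp
  have hi' : ((i : ℕ) : Ordinal.{0}) < (k : ℕ) := by exact_mod_cast hi
  have := hn.of_countable hc (ToType.mk ⟨((i : ℕ) : Ordinal.{0}), hi'⟩)
  simpa [ToType.toOrd] using this

/-- the elements of a set with an enumeration -/
theorem enum_elems {l n F e : g.M} {k : ℕ} (hl : g.Den (onN Cd kp) l)
    (hn : g.Den (onN Cd (k : ℕ)) n) (hF : IsSub g.E F l) (he : IsEnum g.E n F e) :
    ∃ b : Fin k → Ix, StrictMono b ∧ (∀ i, ∃ z, g.Den (iN (b i)) z) ∧
      (∀ z, g.E z F ↔ ∃ i, g.Den (iN (b i)) z) ∧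
      ∀ x y, Rel g.E e x y ↔ ∃ i : Fin k, g.Den (onN Cd (i.1 : ℕ)) x ∧ g.Den (iN (b i)) y := by
  obtain ⟨he1, he2, he3, he4, he5⟩ := he
  have hx : ∀ i : Fin k, ∃ x, g.Den (onN Cd (i.1 : ℕ)) x := fun i => exists_den_lt hn i.2
  choose X hX using hx
  have hXn : ∀ i, g.E (X i) n := fun i =>
    (onN_mem_iff (hX i) hn).2 (by exact_mod_cast i.2)
  choose Y hYF hXY using fun i => he1 (X i) (hXn i)
  choose b hb using fun i => (mem_l hl (Y i)).1 (hF _ (hYF i))
  have hxn : ∀ x, g.E x n → ∃ i : Fin k, x = X i := by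
    intro x hx
    obtain ⟨β, hβ, hxβ⟩ := (den_onN hn x).1 hx
    obtain ⟨j, rfl⟩ := lt_omega0.1 (hβ.trans (natCast_lt_omega0 k))
    have hjk : j < k := by exact_mod_cast hβ
    exact ⟨⟨j, hjk⟩, hxβ.unique (hX ⟨j, hjk⟩)⟩
  have hrel : ∀ x y, Rel g.E e x y → ∃ i : Fin k, x = X i ∧ y = Y i := by
    intro x y hxy
    obtain ⟨i, rfl⟩ := hxn x (he2 x y hxy).1
    exact ⟨i, rfl, he4 _ _ _ hxy (hXY i)⟩
  refine ⟨b, ?_, fun i => ⟨Y i, hb i⟩, ?_, ?_⟩
  · intro i j hij
    have h1 : g.E (X i) (X j) := (onN_mem_iff (hX i) (hX j)).2 (by exact_mod_cast hij)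
    exact (iN_mem_iff (hb i) (hb j)).1 ((he5 _ _ _ _ (hXY i) (hXY j)).1 h1)
  · intro z
    constructor
    · intro hz
      obtain ⟨x, hxz⟩ := he3 z hz
      obtain ⟨i, -, rfl⟩ := hrel x z hxz
      exact ⟨i, hb i⟩
    · rintro ⟨i, hi⟩
      rw [hi.unique (hb i)]
      exact hYF i
  · intro x y
    constructor
    · intro hxy
      obtain ⟨i, rfl, rfl⟩ := hrel x y hxy
      exact ⟨i, hX i, hb i⟩
    · rintro ⟨i, h1, h2⟩
      rw [h1.unique (hX i), h2.unique (hb i)]
      exact hXY i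

/-- the enumeration of a ground model finite set -/
theorem enum_finN {l n F e : g.M} {k : ℕ} (hl : g.Den (onN Cd kp) l)
    (hn : g.Den (onN Cd (k : ℕ)) n) (hF : IsSub g.E F l) (he : IsEnum g.E n F e)
    {b : Fin k → Ix} (hb : StrictMono b) (hFb : g.Den (finN b) F) (x y : g.M) :
    Rel g.E e x y ↔ ∃ i : Fin k, g.Den (onN Cd (i.1 : ℕ)) x ∧ g.Den (iN (b i)) y := by
  obtain ⟨b', hb', h1, h2, h3⟩ := enum_elems hl hn hF he
  have hbb : b' = b := by
    refine (StrictMono.range_inj hb' hb).1 ?_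
    ext α
    constructor
    · rintro ⟨i, rfl⟩
      obtain ⟨z, hz⟩ := h1 i
      obtain ⟨j, hj⟩ := (mem_finN hFb z).1 ((h2 z).2 ⟨i, hz⟩)
      exact ⟨j, iN_inj hj hz⟩
    · rintro ⟨i, rfl⟩
      obtain ⟨z, hz⟩ := finN_den hFb i
      obtain ⟨j, hj⟩ := (h2 z).1 ((mem_finN hFb z).2 ⟨i, hz⟩)
      exact ⟨j, iN_inj hj hz⟩
  rw [hbb] at h3
  exact h3 x y

/-- a name with countably many members denotes a countable set -/
theorem sizeLe_of_countable {τ : Name Cd} (hτ : Countable τ.idx) {w t : g.M}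
    (hw : g.Den (onN Cd ω) w) (ht : g.Den τ t) : SizeLe g.E t w := by
  by_cases hne : Nonempty τ.idx
  · obtain ⟨en, hen⟩ := exists_surjective_nat τ.idx
    refine Gen.tn (v := ![τ, onN Cd ω]) (a := ![t, w]) (den2 ht hw) Dfn.true (dfn_sizeLe 0 1)
      (L := {relN (fun i : ℕ => onN Cd i) (fun i => τ.A (en i)) (fun i => τ.r (en i))})
      (Set.countable_singleton _) ?_ trivial
    intro g' hL u hu _
    obtain ⟨F, hF⟩ := hL _ rfl
    have h0 : g'.Den τ (u 0) := hu 0
    have hω : g'.Den (onN Cd ω) (u 1) := hu 1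
    have hRel := fun x y => den_relN hF x y
    refine g'.zfc.sizeLe_of_surj g'.wf_E (F := F) (onN_total hω) (onN_trans hω) ?_ ?_
    · intro x y y' _ _ _ h1 h2
      obtain ⟨i, -, h3, h4⟩ := (hRel x y).1 h1
      obtain ⟨j, -, h5, h6⟩ := (hRel x y').1 h2
      have : i = j := by exact_mod_cast onN_inj h3 h5
      subst this
      exact h4.unique h6
    · intro y hy
      obtain ⟨i, hi, hyi⟩ := (Gen.mem_iff h0).1 hy
      obtain ⟨m, rfl⟩ := hen i
      obtain ⟨x, hx⟩ := exists_den_nat hω m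
      exact ⟨x, (den_onN hω x).2 ⟨m, natCast_lt_omega0 m, hx⟩, (hRel x y).2 ⟨m, hi, hx, hyi⟩⟩
  · refine g.zfc.sizeLe_of_sub (fun z hz => ?_)
    obtain ⟨i, -, -⟩ := (Gen.mem_iff ht).1 hz
    exact absurd ⟨i⟩ hne

end Pool.Agent.H51.Hfc
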