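import Pool.Agent.H51.Hfc.HfcD
import Pool.Agent.H51.Hfc.DdD
import Pool.Agent.H51.Hfc.CardD

/-!
# A model of ZFC with an `HFC_w` space which is not dually discrete
-/

set_option autoImplicit false

namespace Pool.Agent.H51.Hfc

open Pool.Agent.H90.Frc Ordinal

theorem exists_model_hfc : ∃ (M : Type) (E : M → M → Prop), ZFC E ∧ HfcStatement E := by
  obtain ⟨g, -, hL, -⟩ := exists_gen_set (⊤ : Cd) (n := 0) Fin.elim0
    (L := {onN Cd ω, onN Cd kp, XN, UN}) (by simp)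
  obtain ⟨w, hw⟩ := hL (onN Cd ω) (by simp)
  obtain ⟨l, hl⟩ := hL (onN Cd kp) (by simp)
  obtain ⟨X, hX⟩ := hL XN (by simp)
  obtain ⟨U, hU⟩ := hL UN (by simp)
  exact ⟨g.M, g.E, g.zfc, w, l, X, onN_isOmega hw, isCard_kp hl, not_sizeLe_kp hw hl,
    isHFCw_gen hw hl hX, not_duallyDiscrete_gen hw hl hX hU⟩

end Pool.Agent.H51.Hfc
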