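import Pool.Agent.H51.Hfc.Closed

/-!
# Reflecting tuples into closed sets; the key lemma for `HFC_w`
-/

set_option autoImplicit false

namespace Pool.Agent.H51.Hfc

variable {n : ℕ} {φ : (Fin n → Ix) → Cd → Prop}

/-- A tuple outside of the closed set `S` is in the closure of the set of the tuples in `S`. -/
theorem step {S : Set Ix} (hS : Closed φ S) (hinj : ∀ b s, φ b s → Function.Injective b)
    {r : Cd} {b : Fin n → Ix} (hb : ∀ i, b i ∉ S) (hφ : φ b r) (E T : Finset Ix)
    (e : Fin n → Ix → Bool) (he : ∀ i, ∀ α ∈ E, Val (b i) α (e i α) r) :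
    ∃ r' ≤ r, ∃ b' : Fin n → Ix, ∃ s, SuppC s S ∧ r' ≤ s ∧ (∀ i, b' i ∈ S) ∧ (∀ i, b' i ∉ T) ∧
      φ b' s ∧ ∀ i, ∀ α ∈ E, Val (b' i) α (e i α) r' := by
  classical
  -- the elements used by `r` and by `T`, inside `S`
  let T' : Finset Ix := (T ∪ r.sup_finite.toFinset).filter (· ∈ S)
  let E' : Finset Ix := E.filter (· ∈ S)
  let e' : Fin n → Finset Ix := fun i => E'.filter (fun α => e i α = true)
  have hdec : ∀ i, ∀ α ∈ E', decide (α ∈ e' i) = e i α := by
    intro i α hα
    cases h : e i α <;> simp [e', h, hα]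
  obtain ⟨q', hq', b', h1, h2, h3, h4, h5⟩ := hS.refl (r.restr S) (suppC_restr r S) E' T'
    (by intro x hx; simp only [E', Finset.coe_filter] at hx; exact hx.2)
    (by intro x hx; simp only [T', Finset.coe_filter] at hx; exact hx.2)
    e' (by intro i x hx; simp only [e', E', Finset.coe_filter, Finset.mem_filter] at hx; exact hx.1.2)
    ⟨r, r.le_restr S, b, fun i hi => hb i (Finset.mem_filter.1 hi).2, hφ, fun i α hα => by
      rw [hdec i α hα]
      exact he i α (Finset.mem_filter.1 hα).1⟩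
  have h3' : ∀ i, b' i ∉ T ∧ b' i ∉ r.sup := by
    intro i
    have := h3 i
    simp only [T', Finset.mem_filter, Finset.mem_union, Set.Finite.mem_toFinset, not_and_or,
      not_or] at this
    rcases this with h | h
    · exact h
    · exact absurd (h2 i) h
  -- the values outside of `S`
  let C : Set (Ix × Ix) := (Set.range b') ×ˢ {α | α ∈ E ∧ α ∉ S}
  have hC : C.Finite := (Set.finite_range b').prod (E.finite_toSet.subset fun x hx => hx.1)
  let v : Ix → Ix → Option Bool := fun a α => if h : ∃ i, b' i = a then some (e h.choose α) else none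
  have hv : ∀ i α, v (b' i) α = some (e i α) := by
    intro i α
    have h : ∃ j, b' j = b' i := ⟨i, rfl⟩
    have h6 : h.choose = i := hinj b' q' h4 h.choose_spec
    simp only [v, h, dif_pos, h6]
  let r' : Cd := (q'.join r).upd C hC v
  have hr'q : r' ≤ q' := by
    intro a c w hw
    have hac := h1 a c (by rw [hw]; simp)
    have : (a, c) ∉ C := fun h => h.2.2 hac.2
    rw [Cd.upd_of_notMem this]
    exact Cd.join_le_left q' r a c w hw
  have hr'r : r' ≤ r := by
    intro a c w hw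
    have : (a, c) ∉ C := by
      rintro ⟨⟨i, rfl⟩, -⟩
      exact (h3' i).2 ⟨c, Or.inl (by rw [hw]; simp)⟩
    rw [Cd.upd_of_notMem this]
    refine Cd.join_le_right (fun a c w w' hw hw' => ?_) a c w hw
    have hac := h1 a c (by rw [hw]; simp)
    have h7 : (r.restr S).f a c = some w' := by rw [Cd.restr_of_mem hac.1 hac.2, hw']
    have h8 := hq' a c w' h7
    rw [hw] at h8
    exact Option.some.inj h8
  refine ⟨r', hr'r, b', q', h1, hr'q, h2, fun i => (h3' i).1, h4, fun i α hα => ?_⟩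
  by_cases hαS : α ∈ S
  · have hαE : α ∈ E' := Finset.mem_filter.2 ⟨hα, hαS⟩
    have h6 := (h5 i α hαE).mono hr'q
    rwa [hdec i α hαE] at h6
  · have h6 : r'.f (b' i) α = some (e i α) := by
      have : (b' i, α) ∈ C := ⟨⟨i, rfl⟩, hα, hαS⟩
      rw [Cd.upd_of_mem this, hv]
    have h7 : ∀ q, ¬ InD (b' i) α q := fun q hq => hαS (hS.supp _ (h2 i) hq.mem_supp)
    cases h8 : e i α with
    | true =>
      rw [h8] at h6
      exact val_true.2 (Or.inr ⟨fun q _ => h7 q, h6⟩)
    | false =>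
      rw [h8] at h6
      refine val_false.2 ⟨?_, fun q hq => ⟨q, le_rfl, Or.inr (hq _ _ _ h6)⟩⟩
      rintro rfl
      exact hαS (h2 i)

/-- the family at level `k` -/
def AtL (φ : (Fin n → Ix) → Cd → Prop) (S : ℕ → Set Ix) : ℕ → (Fin n → Ix) → Cd → Prop
  | 0, b, s => φ b s
  | k + 1, b, s => φ b s ∧ ∀ i, b i ∉ S k

theorem Layers.closed {S : ℕ → Set Ix} (h : Layers φ S) (k : ℕ) :
    Closed (AtL φ S k) (S k) := by
  cases k with
  | zero => exact h.c0
  | succ k => exact h.cs k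

theorem AtL.of {S : ℕ → Set Ix} (h : Layers φ S) {k : ℕ} {b : Fin n → Ix} {s : Cd} (hφ : φ b s)
    (hb : ∀ i, b i ∉ S k) : AtL φ S k b s := by
  cases k with
  | zero => exact hφ
  | succ k => exact ⟨hφ, fun i hi => hb i (h.mono (Nat.le_succ k) hi)⟩

theorem AtL.phi {S : ℕ → Set Ix} {k : ℕ} {b : Fin n → Ix} {s : Cd} (h : AtL φ S k b s) : φ b s := by
  cases k with
  | zero => exact h
  | succ k => exact h.1

/-- Below every condition some tuple is forced to be disjoint from `D_β`. -/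
theorem chain (hmono : ∀ b s s', φ b s → s' ≤ s → φ b s')
    (hinj : ∀ b s, φ b s → Function.Injective b) {S : ℕ → Set Ix} (hS : Layers φ S) {β : Ix}
    (k : ℕ) : ∀ U : Finset (Fin n), U.card ≤ k → ∀ (r s : Cd) (b : Fin n → Ix) (E T : Finset Ix)
      (e : Fin n → Ix → Bool), SuppC s (S k) → (∀ i, b i ∈ S k) → AtL φ S k b s → r ≤ s →
      (∀ i, b i ∉ T) → (∀ i, ∀ α ∈ E, Val (b i) α (e i α) r) →
      (∀ i ∉ U, ∀ d ∉ T, ∀ r' ≤ r, (∀ α ∈ E, Val d α (e i α) r') → ¬ InD β d r') →
      ∃ r' ≤ r, ∃ c : Fin n → Ix, ∃ s', SuppC s' (S k) ∧ r' ≤ s' ∧ φ c s' ∧ (∀ i, c i ∈ S k) ∧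
        (∀ i, c i ∉ T) ∧ ∀ i, ∀ r'' ≤ r', ¬ InD β (c i) r'' := by
  classical
  induction k with
  | zero =>
    intro U hU r s b E T e h1 h2 h3 h4 h5 h6 h7
    have hU0 : U = ∅ := Finset.card_eq_zero.1 (Nat.le_zero.1 hU)
    subst hU0
    exact ⟨r, le_rfl, b, s, h1, h4, h3.phi, h2, h5, fun i r'' hr'' =>
      h7 i (Finset.notMem_empty i) (b i) (h5 i) r'' hr'' fun α hα => (h6 i α hα).mono hr''⟩
  | succ k ih =>
    intro U hU r s b E T e h1 h2 h3 h4 h5 h6 h7
    by_cases hcon : ∃ i, ∃ r' ≤ r, InD β (b i) r'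
    · obtain ⟨i, r1, hr1, hin⟩ := hcon
      have hiU : i ∈ U := by
        by_contra hiU
        exact h7 i hiU (b i) (h5 i) r1 hr1 (fun α hα => (h6 i α hα).mono hr1) hin
      obtain ⟨r2, hr2, E', e', h8, h9⟩ := hin.disc
      obtain ⟨r3, hr3, e'', h10⟩ := exists_vals' b (E ∪ E') r2
      have hr3r : r3 ≤ r := hr3.trans (hr2.trans hr1)
      have h11 : ∀ j, ∀ α ∈ E, e'' j α = e j α := fun j α hα =>
        (h10 j α (Finset.mem_union_left _ hα)).unique ((h6 j α hα).mono hr3r)
      have h12 : ∀ α ∈ E', e'' i α = e' α := fun α hα =>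
        (h10 i α (Finset.mem_union_right _ hα)).unique ((h8 α hα).mono hr3)
      have hbk : ∀ j, b j ∉ S k := h3.2
      obtain ⟨r4, hr4, b', s', h13, h14, h15, h16, h17, h18⟩ := step (hS.closed k)
        (fun b s h => hinj b s h.phi) hbk
        (AtL.of hS (hmono b s r3 h3.phi (hr3r.trans h4)) hbk) (E ∪ E')
        (T ∪ {b i}) e'' h10
      obtain ⟨r5, hr5, c, s'', h19, h20, h21, h22, h23, h24⟩ := ih (U.erase i)
        (by rw [Finset.card_erase_of_mem hiU]; omega) r4 s' b' (E ∪ E') (T ∪ {b i}) e''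
        h13 h15 h17 h14 h16 h18 (by
          intro j hj d hd r' hr' hval hin'
          simp only [Finset.mem_union, Finset.mem_singleton, not_or] at hd
          by_cases hji : j = i
          · subst hji
            refine hd.2 (h9 d r' ((hr'.trans hr4).trans hr3) hin' fun α hα => ?_)
            rw [← h12 α hα]
            exact hval α (Finset.mem_union_right _ hα)
          · have hjU : j ∉ U := fun h => hj (Finset.mem_erase.2 ⟨hji, h⟩)
            refine h7 j hjU d hd.1 r' ((hr'.trans hr4).trans hr3r) (fun α hα => ?_) hin'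
            rw [← h11 j α hα]
            exact hval α (Finset.mem_union_left _ hα))
      exact ⟨r5, (hr5.trans hr4).trans hr3r, c, s'', h19.mono (hS.mono (Nat.le_succ k)), h20, h21,
        fun i => hS.mono (Nat.le_succ k) (h22 i), fun j hj => h23 j (Finset.mem_union_left _ hj),
        h24⟩
    · push Not at hcon
      exact ⟨r, le_rfl, b, s, h1, h4, h3.phi, h2, h5, fun i r'' hr'' => hcon i r'' hr''⟩

/-- **Key lemma for `HFC_w`.** -/
theorem hfc_key (hmono : ∀ b s s', φ b s → s' ≤ s → φ b s')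
    (hinj : ∀ b s, φ b s → Function.Injective b) {p : Cd}
    (hbig : ∀ S : Set Ix, S.Countable → ∀ q ≤ p, ∃ r ≤ q, ∃ b, (∀ i, b i ∉ S) ∧ φ b r) :
    ∃ S : Set Ix, S.Countable ∧ ∀ β ∉ S, ∀ q ≤ p, ∀ e : Fin n → Bool, ∃ r ≤ q,
      ∃ (b : Fin n → Ix) (s : Cd), r ≤ s ∧ SuppC s S ∧ (∀ i, b i ∈ S) ∧ φ b s ∧
        ∀ i, Val β (b i) (e i) r := by
  classical
  obtain ⟨S, hS⟩ := exists_layers φ
  refine ⟨S n, hS.cnt n, fun β hβ q hq e => ?_⟩
  obtain ⟨r1, hr1, b1, h1, h2⟩ := hbig (S n) (hS.cnt n) q hq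
  let T : Finset Ix := q.sup_finite.toFinset
  obtain ⟨r2, hr2, b2, s2, h3, h4, h5, h6, h7, -⟩ := step (hS.closed n)
    (fun b s h => hinj b s h.phi) h1 (AtL.of hS h2 h1) ∅ T (fun _ _ => true) (by simp)
  obtain ⟨r, hr, c, s, h8, h9, h10, h11, h12, h13⟩ := chain hmono hinj hS (β := β) n
    Finset.univ (by simp) r2 s2 b2 ∅ T (fun _ _ => true) h3 h5 h7 h4 h6 (by simp) (by simp)
  have hrq : r ≤ q := hr.trans (hr2.trans hr1)
  have hcq : ∀ i a, q.f a (c i) = none := by
    intro i a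
    by_contra h
    exact h12 i ((q.sup_finite.mem_toFinset).2 ⟨a, Or.inr h⟩)
  let C : Set (Ix × Ix) := {β} ×ˢ Set.range c
  have hC : C.Finite := (Set.finite_singleton β).prod (Set.finite_range c)
  let v : Ix → Ix → Option Bool := fun _ α => if h : ∃ i, c i = α then some (e h.choose) else none
  have hv : ∀ i a, v a (c i) = some (e i) := by
    intro i a
    have h : ∃ j, c j = c i := ⟨i, rfl⟩
    have h6 : h.choose = i := hinj c s h10 h.choose_spec
    simp only [v, h, dif_pos, h6]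
  let r' : Cd := r.upd C hC v
  have h14 : ∀ i, ∀ q' ≤ r', ¬ InD β (c i) q' := by
    rintro i q' hq' ⟨hg, t, ht, hqt⟩
    have hs := (good_iff.1 hg).1
    have hβt : ∀ a, t.f β a = none := by
      intro a
      by_contra h
      have h15 : β ∈ supp (NN β) := ⟨(c i, t), ht, Or.inr ⟨a, Or.inl h⟩⟩
      exact lt_irrefl β (Set.mem_Iio.1 (hs h15))
    refine h13 i (q'.upd C hC fun a α => r.f a α) ?_ ⟨hg, t, ht, ?_⟩
    · intro a α w hw
      by_cases h : (a, α) ∈ C
      · rw [Cd.upd_of_mem h, hw]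
      · rw [Cd.upd_of_notMem h]
        refine hq' a α w ?_
        rw [Cd.upd_of_notMem h, hw]
    · intro a α w hw
      have h : (a, α) ∉ C := by
        rintro ⟨h, -⟩
        rw [show a = β from h, hβt] at hw
        cases hw
      rw [Cd.upd_of_notMem h]
      exact hqt a α w hw
  refine ⟨r', ?_, c, s, ?_, h8, h11, h10, fun i => ?_⟩
  · intro a α w hw
    have h : (a, α) ∉ C := by
      rintro ⟨-, i, rfl⟩
      rw [hcq] at hw
      cases hw
    rw [Cd.upd_of_notMem h]
    exact hrq a α w hw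
  · intro a α w hw
    have h : (a, α) ∉ C := by
      rintro ⟨h, -⟩
      have := (h8 a α (by rw [hw]; simp)).1
      rw [show a = β from h] at this
      exact hβ this
    rw [Cd.upd_of_notMem h]
    exact h9 a α w hw
  · have hC' : (β, c i) ∈ C := Set.mk_mem_prod (Set.mem_singleton β) (Set.mem_range_self i)
    have h15 : r'.f β (c i) = some (e i) := (Cd.upd_of_mem hC').trans (hv i β)
    cases h16 : e i with
    | true =>
      rw [h16] at h15
      exact val_true.2 (Or.inr ⟨h14 i, h15⟩)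
    | false =>
      rw [h16] at h15
      refine val_false.2 ⟨?_, fun q hq => ⟨q, le_rfl, Or.inr (hq _ _ _ h15)⟩⟩
      intro h
      exact hβ (h ▸ h11 i)

end Pool.Agent.H51.Hfc
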