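import Pool.Agent.H51.Hfc.FinD
import Pool.Agent.H51.Hfc.Step

/-!
# The space is `HFC_w` in the generic structure
-/

set_option autoImplicit false

namespace Pool.Agent.H51.Hfc

open Pool.Agent.H90.SN Pool.Agent.H90.Frc Ordinal

section defs

variable {M : Type} (E : M → M → Prop)

/-- hypotheses on the family `A` -/
def FamHyp (w l n A : M) : Prop :=
  (∀ F, E F A → IsSub E F l ∧ ∃ e, IsEnum E n F e) ∧
  (∀ F F' α, E F A → E F' A → E α F → E α F' → F = F') ∧ ¬ SizeLe E A w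

/-- conclusion for the family `A` -/
def FamCon (w X n A : M) : Prop :=
  ∃ B, IsSub E B A ∧ SizeLe E B w ∧
    ∀ b, IsSub E b n → ∀ Y, (∀ x, E x Y ↔ E x X ∧ ∀ F, E F B → ¬ InBox E n F b x) → SizeLe E Y w

end defs

theorem dfn_famHyp {n : ℕ} (i j k m : Fin n) :
    Dfn (fun _ E v => FamHyp E (v i) (v j) (v k) (v m)) := by
  refine .and ?_ (.and ?_ (.not (dfn_sizeLe _ _)))
  · exact .all (.imp (.mem _ _) (.and (dfn_isSub _ _) (.ex (dfn_isEnum _ _ _))))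
  · exact .all (.all (.all (.imp (.mem _ _) (.imp (.mem _ _) (.imp (.mem _ _)
      (.imp (.mem _ _) (.eq _ _)))))))

theorem dfn_famCon {n : ℕ} (i j k m : Fin n) :
    Dfn (fun _ E v => FamCon E (v i) (v j) (v k) (v m)) := by
  refine .ex (.and (dfn_isSub _ _) (.and (dfn_sizeLe _ _)
    (.all (.imp (dfn_isSub _ _) (.all (.imp ?_ (dfn_sizeLe _ _)))))))
  exact .all (.iff (.mem _ _) (.and (.mem _ _) (.all (.imp (.mem _ _)
      (.not (dfn_inBox _ _ _ _))))))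

/-- `s` forces that `{b 0, …, b (k - 1)}` is in `τ` -/
def Phi (τ : Name Cd) {k : ℕ} (b : Fin k → Ix) (s : Cd) : Prop :=
  StrictMono b ∧ Fc s ![finN b, τ] (fun _ E v => E (v 0) (v 1))

theorem Phi.mono {τ : Name Cd} {k : ℕ} {b : Fin k → Ix} {s s' : Cd} (h : Phi τ b s) (hs : s' ≤ s) :
    Phi τ b s' := ⟨h.1, h.2.mono hs⟩

/-- if an element `F` of `A` has the elements `b i` then some condition in the filter forces this -/
theorem exists_phi {g : Gen Cd} {τ : Name Cd} {A F : g.M} (hA : g.Den τ A) (hF : g.E F A) {k : ℕ}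
    {b : Fin k → Ix} (hb : StrictMono b) (hz : ∀ i, ∃ z, g.Den (iN (b i)) z)
    (hFb : ∀ z, g.E z F ↔ ∃ i, g.Den (iN (b i)) z) : ∃ r ∈ g.G, Phi τ b r := by
  obtain ⟨σ, hσ⟩ := g.exists_den F
  choose z hz using hz
  have hD : Dfn (n := 2 + k) (fun _ E v => E (v (Fin.castAdd k 0)) (v (Fin.castAdd k 1)) ∧
      ∀ z, E z (v (Fin.castAdd k 0)) ↔ ∃ i : Fin k, z = v (Fin.natAdd 2 i)) :=
    .and (.mem _ _) (.all (.iff (.mem _ _) (dfn_exFin fun i => .eq _ _)))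
  have hden : ∀ i, g.Den (Fin.append ![σ, τ] (fun i => iN (b i)) i) (Fin.append ![F, A] z i) := by
    intro i
    refine Fin.addCases (fun j => ?_) (fun j => ?_) i
    · rw [Fin.append_left, Fin.append_left]
      exact den2 hσ hA j
    · rw [Fin.append_right, Fin.append_right]
      exact hz j
  obtain ⟨r, hr, hf⟩ := (Fc.truth hD hden).1 (by
    simp only [Fin.append_left, Fin.append_right]
    refine ⟨hF, fun x => ?_⟩
    change g.E x F ↔ _
    rw [hFb]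
    exact exists_congr fun i => ⟨fun h => h.unique (hz i), fun h => h ▸ hz i⟩)
  refine ⟨r, hr, hb, ?_⟩
  refine Fc.with_names (Dfn.mem 0 1) (L := {σ} ∪ Set.range (fun i => iN (b i)))
    ((Set.countable_singleton _).union (Set.countable_range _)) ?_
  intro g' hg' hL u hu
  obtain ⟨F', hF'⟩ := hL σ (Or.inl rfl)
  have hz' : ∀ i, ∃ z, g'.Den (iN (b i)) z := fun i => hL _ (Or.inr ⟨i, rfl⟩)
  choose z' hz' using hz'
  have h0 : g'.Den (finN b) (u 0) := hu 0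
  have h1 : g'.Den τ (u 1) := hu 1
  have h2 := hf g' hg' (Fin.append ![F', u 1] z') (by
    intro i
    refine Fin.addCases (fun j => ?_) (fun j => ?_) i
    · rw [Fin.append_left, Fin.append_left]
      exact den2 hF' h1 j
    · rw [Fin.append_right, Fin.append_right]
      exact hz' j)
  simp only [Fin.append_left, Fin.append_right] at h2
  obtain ⟨h3, h4⟩ := h2
  have h5 : u 0 = F' := by
    refine Gen.extensional fun x => ?_
    rw [mem_finN h0, show g'.E x F' ↔ _ from h4 x]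
    exact exists_congr fun i => ⟨fun h => h.unique (hz' i), fun h => h ▸ hz' i⟩
  change g'.E (u 0) (u 1)
  rw [h5]
  exact h3

/-- in an uncountable disjoint family some member avoids a given countable set -/
theorem phi_big {τ : Name Cd} {k : ℕ} {p : Cd}
    (hp : Fc p ![onN Cd ω, onN Cd kp, onN Cd (k : ℕ), τ]
      (fun _ E v => FamHyp E (v 0) (v 1) (v 2) (v 3)))
    (S : Set Ix) (hS : S.Countable) (q : Cd) (hq : q ≤ p) :
    ∃ r ≤ q, ∃ b : Fin k → Ix, (∀ i, b i ∉ S) ∧ Phi τ b r := by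
  let SN : Name Cd := .mk S (fun a => iN a.1) (fun _ => ⊤)
  obtain ⟨g, hg, hL, u, hu⟩ := exists_gen_set q ![onN Cd ω, onN Cd kp, onN Cd (k : ℕ), τ]
    (L := {SN}) (Set.countable_singleton _)
  obtain ⟨T, hT⟩ := hL SN rfl
  have hw : g.Den (onN Cd ω) (u 0) := hu 0
  have hl : g.Den (onN Cd kp) (u 1) := hu 1
  have hn : g.Den (onN Cd (k : ℕ)) (u 2) := hu 2
  have hA : g.Den τ (u 3) := hu 3
  obtain ⟨h1, h2, h3⟩ : FamHyp g.E (u 0) (u 1) (u 2) (u 3) := hp g (g.up q hg p hq) u hu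
  have hTm : ∀ z, g.E z T ↔ ∃ α ∈ S, g.Den (iN α) z := by
    intro z
    rw [Gen.mem_iff hT]
    constructor
    · rintro ⟨⟨α, hα⟩, -, h⟩
      exact ⟨α, hα, h⟩
    · rintro ⟨α, hα, h⟩
      exact ⟨⟨α, hα⟩, g.top_mem, h⟩
  have hSc : Countable S := hS.to_subtype
  have hTw : SizeLe g.E T (u 0) := sizeLe_of_countable (τ := SN) hSc hw hT
  obtain ⟨F, hF, hFT⟩ : ∃ F, g.E F (u 3) ∧ ∀ z, g.E z T → ¬ g.E z F := by
    by_contra hcon
    push Not at hcon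
    refine h3 (g.zfc.sizeLe_trans (b := T) ?_ hTw)
    refine g.zfc.sizeLe_of_rel (n := 1) (R := fun _ E v => E (v 2) (v 1) ∧
      ∀ z, E z (v 0) → E z (v 1) → ¬ E z (v 2))
      (.and (.mem _ _) (.all (.imp (.mem _ _) (.imp (.mem _ _) (.not (.mem _ _)))))) ![T] ?_ ?_ ?_
    · intro F hF
      obtain ⟨z, ⟨hz1, hz2⟩, hmin⟩ := g.wf_E.has_min {z | g.E z T ∧ g.E z F} (hcon F hF)
      exact ⟨z, hz1, hz2, fun z' h4 h5 h6 => hmin z' ⟨h4, h5⟩ h6⟩
    · rintro F z z' - hz hz' ⟨h4, h5⟩ ⟨h6, h7⟩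
      change g.E z F at h4
      change g.E z' F at h6
      obtain ⟨α, -, hα⟩ := (hTm z).1 hz
      obtain ⟨α', -, hα'⟩ := (hTm z').1 hz'
      rcases lt_trichotomy α α' with h | h | h
      · exact (h7 z hz h4 ((iN_mem_iff hα hα').2 h)).elim
      · subst h
        exact hα.unique hα'
      · exact (h5 z' hz' h6 ((iN_mem_iff hα' hα).2 h)).elim
    · rintro F F' z hF hF' - ⟨h4, -⟩ ⟨h5, -⟩
      exact h2 F F' z hF hF' h4 h5
  obtain ⟨hFl, e, he⟩ := h1 F hF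
  obtain ⟨b, hb, hz, hFb, -⟩ := enum_elems hl hn hFl he
  obtain ⟨r, hr, hphi⟩ := exists_phi hA hF hb hz hFb
  obtain ⟨r', hr', h4, h5⟩ := g.dir r hr q hg
  refine ⟨r', h5, b, fun i hi => ?_, hphi.mono h4⟩
  obtain ⟨z, hz⟩ := hz i
  exact hFT z ((hTm z).2 ⟨b i, hi, hz⟩) ((hFb z).2 ⟨i, hz⟩)

/-- **The conclusion for one family.** -/
theorem famCon {g : Gen Cd} {w l X n A : g.M} {k : ℕ} (hw : g.Den (onN Cd ω) w)
    (hl : g.Den (onN Cd kp) l) (hX : g.Den XN X) (hn : g.Den (onN Cd (k : ℕ)) n)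
    (h : FamHyp g.E w l n A) : FamCon g.E w X n A := by
  classical
  obtain ⟨τ, hA⟩ := g.exists_den A
  refine Gen.tp (v := ![onN Cd ω, onN Cd kp, onN Cd (k : ℕ), τ, XN]) (a := ![w, l, n, A, X])
    (den5 hw hl hn hA hX) (dfn_famHyp 0 1 2 3) (dfn_famCon 0 4 2 3) ?_ h
  clear hw hl hX hn h hA
  intro p hp
  have hp' : Fc p ![onN Cd ω, onN Cd kp, onN Cd (k : ℕ), τ]
      (fun _ E v => FamHyp E (v 0) (v 1) (v 2) (v 3)) := by
    refine Fc.with_names (dfn_famHyp 0 1 2 3) (L := {XN}) (Set.countable_singleton _) ?_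
    intro g' hg' hL u hu
    obtain ⟨X', hX'⟩ := hL XN rfl
    exact hp g' hg' ![u 0, u 1, u 2, u 3, X'] (den5 (hu 0) (hu 1) (hu 2) (hu 3) hX')
  obtain ⟨S, hS, hkey⟩ := hfc_key (φ := Phi τ (k := k)) (fun b s s' h hs => h.mono hs)
    (fun b s h => h.1.injective) (phi_big hp')
  let BN : Name Cd := .mk {x : (Fin k → Ix) × Cd // ((∀ i, x.1 i ∈ S) ∧ SuppC x.2 S) ∧
    Phi τ x.1 x.2} (fun x => finN x.1.1) (fun x => x.1.2)
  let TN : Name Cd := .mk S (fun β => xN β.1) (fun _ => ⊤)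
  have hBNc : Countable BN.idx := by
    have h1 : {x : (Fin k → Ix) × Cd | (∀ i, x.1 i ∈ S) ∧ SuppC x.2 S}.Countable := by
      have h2 : (Set.pi Set.univ (fun _ : Fin k => S)).Countable :=
        Set.countable_univ_pi fun _ => hS
      refine (h2.prod (countable_suppC hS)).mono ?_
      rintro ⟨b, s⟩ ⟨h3, h4⟩
      exact ⟨fun i _ => h3 i, h4⟩
    have h2 : {x : (Fin k → Ix) × Cd | ((∀ i, x.1 i ∈ S) ∧ SuppC x.2 S) ∧
        Phi τ x.1 x.2}.Countable := h1.mono fun x hx => hx.1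
    exact h2.to_subtype
  have hTNc : Countable TN.idx := hS.to_subtype
  refine ⟨p, le_rfl, {BN, TN} ∪ Set.range (patN (n := k)),
    (Set.toFinite _).countable.union (Set.countable_range _), ?_⟩
  intro g hg hL u hu hyp
  obtain ⟨B, hB⟩ := hL BN (Or.inl (Or.inl rfl))
  obtain ⟨T, hT⟩ := hL TN (Or.inl (Or.inr rfl))
  have hw : g.Den (onN Cd ω) (u 0) := hu 0
  have hl : g.Den (onN Cd kp) (u 1) := hu 1
  have hn : g.Den (onN Cd (k : ℕ)) (u 2) := hu 2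
  have hA : g.Den τ (u 3) := hu 3
  have hX : g.Den XN (u 4) := hu 4
  refine ⟨B, ?_, sizeLe_of_countable hBNc hw hB, ?_⟩
  · intro F hF
    obtain ⟨⟨⟨b, s⟩, h1, h2⟩, hs, hFb⟩ := (Gen.mem_iff hB).1 hF
    exact h2.2 g hs ![F, u 3] (den2 hFb hA)
  intro b0 hb0 Y hY
  -- the pattern
  let e : Fin k → Bool := fun i => decide (∃ z, g.Den (onN Cd (i.1 : ℕ)) z ∧ g.E z b0)
  obtain ⟨c, hc⟩ := hL (patN e) (Or.inr ⟨e, rfl⟩)
  have hcb : c = b0 := by
    refine Gen.extensional fun z => ?_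
    rw [mem_patN hc]
    constructor
    · rintro ⟨i, hi, hz⟩
      obtain ⟨z', hz', h1⟩ := of_decide_eq_true hi
      rwa [hz.unique hz']
    · intro hz
      obtain ⟨ξ, hξ, hzξ⟩ := (den_onN hn z).1 (hb0 z hz)
      obtain ⟨m, rfl⟩ := lt_omega0.1 (hξ.trans (natCast_lt_omega0 k))
      have hm : m < k := by exact_mod_cast hξ
      exact ⟨⟨m, hm⟩, decide_eq_true ⟨z, hzξ, hz⟩, hzξ⟩
  rw [hcb] at hc
  refine g.zfc.sizeLe_trans (b := T) (g.zfc.sizeLe_of_sub fun x hx => ?_)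
    (sizeLe_of_countable hTNc hw hT)
  obtain ⟨hxX, hxB⟩ := (hY x).1 hx
  obtain ⟨β, hβ⟩ := (mem_XN hX x).1 hxX
  have hβS : β ∈ S := by
    by_contra hβS
    have hfc : Fc p ![onN Cd ω, onN Cd kp, onN Cd (k : ℕ), τ, XN, BN, patN e, xN β]
        (fun _ E v => ∃ F, E F (v 5) ∧ InBox E (v 2) F (v 6) (v 7)) := by
      refine Fc.stable (.ex (.and (.mem _ _) (dfn_inBox _ _ _ _))) fun q hq => ?_
      obtain ⟨r, hr, b, s, hrs, hsS, hbS, hphi, hval⟩ := hkey β hβS q hq e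
      refine ⟨r, hr, Fc.with_names (.ex (.and (.mem _ _) (dfn_inBox _ _ _ _)))
        (L := {finN b}) (Set.countable_singleton _) ?_⟩
      intro g' hg' hL' u' hu'
      obtain ⟨F, hF⟩ := hL' (finN b) rfl
      have hl' : g'.Den (onN Cd kp) (u' 1) := hu' 1
      have hn' : g'.Den (onN Cd (k : ℕ)) (u' 2) := hu' 2
      have hA' : g'.Den τ (u' 3) := hu' 3
      have hB' : g'.Den BN (u' 5) := hu' 5
      have hc' : g'.Den (patN e) (u' 6) := hu' 6
      have hx' : g'.Den (xN β) (u' 7) := hu' 7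
      have hs' : s ∈ g'.G := g'.up r hg' s hrs
      have hyp' : FamHyp g'.E (u' 0) (u' 1) (u' 2) (u' 3) :=
        hp g' (g'.up r hg' p (hr.trans hq)) ![u' 0, u' 1, u' 2, u' 3, u' 4]
          (den5 (hu' 0) (hu' 1) (hu' 2) (hu' 3) (hu' 4))
      have hFA : g'.E F (u' 3) := hphi.2 g' hs' ![F, u' 3] (den2 hF hA')
      obtain ⟨hFl, e', he'⟩ := hyp'.1 F hFA
      refine ⟨F, (Gen.mem_iff hB').2 ⟨⟨(b, s), ⟨hbS, hsS⟩, hphi⟩, hs', hF⟩, e', he', ?_⟩
      intro i α hiα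
      obtain ⟨j, hj1, hj2⟩ := (enum_finN hl' hn' hFl he' hphi.1 hF i α).1 hiα
      rw [mem_xN_iff hx' hj2 hg' (hval j), mem_patN hc']
      constructor
      · intro h
        exact ⟨j, h, hj1⟩
      · rintro ⟨j', h, hj'⟩
        have h4 : ((j.1 : ℕ) : Ordinal.{0}) = ((j'.1 : ℕ) : Ordinal.{0}) := onN_inj hj1 hj'
        have h5 : j = j' := Fin.ext (by exact_mod_cast h4)
        rw [h5]
        exact h
    have h1 := hfc g hg ![u 0, u 1, u 2, u 3, u 4, B, b0, x] (by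
      intro i
      fin_cases i
      exacts [hu 0, hu 1, hu 2, hu 3, hu 4, hB, hc, hβ])
    obtain ⟨F, hF, hbox⟩ := h1
    exact hxB F hF hbox
  exact (Gen.mem_iff hT).2 ⟨⟨β, hβS⟩, g.top_mem, hβ⟩

theorem isHFCw_gen {g : Gen Cd} {w l X : g.M} (hw : g.Den (onN Cd ω) w)
    (hl : g.Den (onN Cd kp) l) (hX : g.Den XN X) : IsHFCw g.E w l X := by
  refine ⟨fun x hx z hz => ?_, fun n hn A h1 h2 h3 => ?_⟩
  · obtain ⟨β, hβ⟩ := (mem_XN hX x).1 hx
    obtain ⟨α, hα, -⟩ := (mem_xN hβ z).1 hz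
    exact (mem_l hl z).2 ⟨α, hα⟩
  · obtain ⟨ξ, hξ, hnξ⟩ := (den_onN hw n).1 hn
    obtain ⟨k, rfl⟩ := lt_omega0.1 hξ
    exact famCon hw hl hX hnξ ⟨h1, h2, h3⟩

end Pool.Agent.H51.Hfc
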