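import Pool.Agent.H51.Hfc.Val
import Pool.Agent.H51.Hfc.Stmt
import Pool.Agent.H90.Frc.Tools

/-!
# The names of the points, of the space and of the neighbourhood assignment
-/

set_option autoImplicit false

namespace Pool.Agent.H51.Hfc

open Pool.Agent.H90.SN Pool.Agent.H90.Frc Ordinal

/-- the ordinal `κ` -/
noncomputable abbrev kp : Ordinal.{0} := (Cardinal.continuum.{0}).ord

/-- the canonical name of an element of `Ix` -/
noncomputable def iN (a : Ix) : Name Cd := onN Cd a.toOrd.1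

/-- name of the point `x_β` -/
noncomputable def xN (β : Ix) : Name Cd :=
  .mk {x : Ix × Cd // Val β x.1 true x.2} (fun x => iN x.1.1) (fun x => x.1.2)

/-- name of the space -/
noncomputable def XN : Name Cd := .mk Ix xN (fun _ => ⊤)

/-- name of the neighbourhood assignment `U_{x_d} = {x_β | x_β(d) = 1}` -/
noncomputable def UN : Name Cd :=
  relN (ι := {x : Ix × Ix × Cd // Val x.2.1 x.1 true x.2.2}) (fun x => xN x.1.1)
    (fun x => xN x.1.2.1) (fun x => x.1.2.2)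

/-- name of the finite set `{b 0, …, b (n - 1)}` -/
noncomputable def finN {n : ℕ} (b : Fin n → Ix) : Name Cd :=
  .mk (Fin n) (fun i => iN (b i)) (fun _ => ⊤)

/-- name of the element of `2^n` given by `e` -/
noncomputable def patN {n : ℕ} (e : Fin n → Bool) : Name Cd :=
  .mk {i : Fin n // e i = true} (fun i => onN Cd (i.1.1 : ℕ)) (fun _ => ⊤)

variable {g : Gen Cd}

theorem iN_inj {α β : Ix} {a : g.M} (ha : g.Den (iN α) a) (hb : g.Den (iN β) a) : α = β :=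
  toOrd_inj (onN_inj ha hb)

theorem mem_l {l : g.M} (hl : g.Den (onN Cd kp) l) (z : g.M) :
    g.E z l ↔ ∃ α : Ix, g.Den (iN α) z := by
  rw [den_onN hl]
  constructor
  · rintro ⟨ξ, hξ, hz⟩
    exact ⟨ToType.mk ⟨ξ, hξ⟩, by simpa [iN, ToType.toOrd] using hz⟩
  · rintro ⟨α, hα⟩
    exact ⟨_, α.toOrd.2, hα⟩

theorem iN_mem_iff {α β : Ix} {a b : g.M} (ha : g.Den (iN α) a) (hb : g.Den (iN β) b) :
    g.E a b ↔ α < β := by
  rw [onN_mem_iff ha hb]
  exact ⟨fun h => ToType.mk.symm.lt_iff_lt.1 h, fun h => ToType.mk.symm.lt_iff_lt.2 h⟩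

theorem mem_xN {β : Ix} {x : g.M} (hx : g.Den (xN β) x) (z : g.M) :
    g.E z x ↔ ∃ α, g.Den (iN α) z ∧ ∃ p ∈ g.G, Val β α true p := by
  rw [Gen.mem_iff hx]
  constructor
  · rintro ⟨⟨⟨α, p⟩, h⟩, hp, hz⟩
    exact ⟨α, hz, p, hp, h⟩
  · rintro ⟨α, hz, p, hp, h⟩
    exact ⟨⟨⟨α, p⟩, h⟩, hp, hz⟩

theorem mem_xN' {β α : Ix} {x a : g.M} (hx : g.Den (xN β) x) (ha : g.Den (iN α) a) :
    g.E a x ↔ ∃ p ∈ g.G, Val β α true p := by
  rw [mem_xN hx]
  constructor
  · rintro ⟨α', ha', h⟩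
    rwa [iN_inj ha ha']
  · intro h
    exact ⟨α, ha, h⟩

/-- no condition in the filter forces two different values -/
theorem val_unique {β α : Ix} {b b' : Bool} {p p' : Cd} (hp : p ∈ g.G) (hp' : p' ∈ g.G)
    (h : Val β α b p) (h' : Val β α b' p') : b = b' := by
  obtain ⟨r, -, h1, h2⟩ := g.dir p hp p' hp'
  exact (h.mono h1).unique (h'.mono h2)

theorem notMem_xN {β α : Ix} {x a : g.M} (hx : g.Den (xN β) x) (ha : g.Den (iN α) a) :
    ¬ g.E a x ↔ ∃ p ∈ g.G, Val β α false p := by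
  constructor
  · intro h
    obtain ⟨p, hp, hf⟩ := (Fc.truth (v := ![iN α, xN β]) (a := ![a, x])
      (R := fun _ E v => ¬ E (v 0) (v 1)) (Dfn.mem 0 1).not (den2 ha hx)).1 h
    refine ⟨p, hp, val_false_of fun q hq hv => ?_⟩
    obtain ⟨g', hg', u, hu⟩ := exists_gen_fin q ![iN α, xN β]
    exact hf g' (g'.up q hg' p hq) u hu ((mem_xN' (hu 1) (hu 0)).2 ⟨q, hg', hv⟩)
  · rintro ⟨p, hp, h⟩ hE
    obtain ⟨p', hp', h'⟩ := (mem_xN' hx ha).1 hE
    exact Bool.noConfusion (val_unique hp hp' h h')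

/-- the value of a point is decided -/
theorem mem_xN_iff {β α : Ix} {b : Bool} {x a : g.M} (hx : g.Den (xN β) x) (ha : g.Den (iN α) a)
    {p : Cd} (hp : p ∈ g.G) (h : Val β α b p) : g.E a x ↔ b = true := by
  rw [mem_xN' hx ha]
  constructor
  · rintro ⟨p', hp', h'⟩
    exact val_unique hp hp' h h'
  · rintro rfl
    exact ⟨p, hp, h⟩

theorem exists_val {β α : Ix} {x a : g.M} (hx : g.Den (xN β) x) (ha : g.Den (iN α) a) :
    ∃ b, ∃ p ∈ g.G, Val β α b p := by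
  by_cases h : g.E a x
  · exact ⟨true, (mem_xN' hx ha).1 h⟩
  · exact ⟨false, (notMem_xN hx ha).1 h⟩

theorem mem_XN {X : g.M} (hX : g.Den XN X) (z : g.M) : g.E z X ↔ ∃ β, g.Den (xN β) z := by
  rw [Gen.mem_iff hX]
  constructor
  · rintro ⟨β, -, h⟩
    exact ⟨β, h⟩
  · rintro ⟨β, h⟩
    exact ⟨β, g.top_mem, h⟩

/-- two different points are separated by some coordinate -/
theorem exists_sep {d d' : Ix} (hdd : d ≠ d') (p : Cd) :
    ∃ q ≤ p, ∃ α, Val d α true q ∧ Val d' α false q := by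
  have hc : (supp (NN d) ∪ supp (NN d') ∪ ({d, d'} : Set Ix) ∪ p.sup).Countable :=
    (((supp_countable (NN_countable d)).union (supp_countable (NN_countable d'))).union
      (Set.toFinite _).countable).union p.sup_finite.countable
  obtain ⟨α, hα⟩ : ∃ α, α ∉ supp (NN d) ∪ supp (NN d') ∪ ({d, d'} : Set Ix) ∪ p.sup := by
    by_contra hcon
    push Not at hcon
    exact ix_not_countable (hc.mono fun x _ => hcon x)
  simp only [Set.mem_union, not_or, Set.mem_insert_iff, Set.mem_singleton_iff] at hα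
  obtain ⟨⟨⟨h1, h2⟩, h3, h4⟩, h5⟩ := hα
  have h6 : ∀ c, p.f c α = none := by
    intro c
    by_contra h
    exact h5 ⟨c, Or.inr h⟩
  obtain ⟨q, hq, h7⟩ := exists_ext p d α true (by rw [h6]; simp)
  by_cases h8 : q.f d' α = some true
  · -- this does not happen for the extension chosen, but we can avoid the question
    refine ⟨p.upd {(d, α), (d', α)} (Set.toFinite _) fun c _ => if c = d then some true else
      some false, ?_, α, ?_, ?_⟩
    · intro a c v hv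
      rw [Cd.upd_of_notMem, hv]
      rintro (h | h) <;> simp only [Prod.mk.injEq, Set.mem_singleton_iff] at h
      · rw [h.2, h6] at hv
        cases hv
      · rw [h.2, h6] at hv
        cases hv
    · refine val_true.2 (Or.inr ⟨fun r _ hin => h1 hin.mem_supp, ?_⟩)
      rw [Cd.upd_of_mem (by simp)]
      simp
    · refine val_false.2 ⟨h4, fun r hr => ⟨r, le_rfl, Or.inr (hr _ _ _ ?_)⟩⟩
      rw [Cd.upd_of_mem (by simp)]
      simp [Ne.symm hdd]
  · obtain ⟨r, hr, h9⟩ := exists_ext q d' α false (by simpa using h8)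
    refine ⟨r, hr.trans hq, α, ?_, ?_⟩
    · exact val_true.2 (Or.inr ⟨fun r _ hin => h1 hin.mem_supp, hr _ _ _ h7⟩)
    · exact val_false.2 ⟨h4, fun s hs => ⟨s, le_rfl, Or.inr (hs _ _ _ h9)⟩⟩

theorem xN_inj {β β' : Ix} {x : g.M} (h : g.Den (xN β) x) (h' : g.Den (xN β') x) : β = β' := by
  by_contra hne
  obtain ⟨p, hp, hf⟩ := (Fc.truth (v := ![xN β, xN β']) (a := ![x, x])
    (R := fun _ _ v => v 0 = v 1) (Dfn.eq 0 1) (den2 h h')).1 rfl
  obtain ⟨q, hq, α, h1, h2⟩ := exists_sep hne p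
  obtain ⟨g', hg', u, hu⟩ := exists_gen_fin q ![xN β, xN β', iN α]
  have h3 : u 0 = u 1 := hf g' (g'.up q hg' p hq) ![u 0, u 1] (den2 (hu 0) (hu 1))
  have h4 := (mem_xN' (hu 0) (hu 2)).2 ⟨q, hg', h1⟩
  have h5 := (notMem_xN (hu 1) (hu 2)).2 ⟨q, hg', h2⟩
  rw [h3] at h4
  exact h5 h4

theorem rel_UN {U : g.M} (hU : g.Den UN U) {x y : g.M} :
    Rel g.E U x y ↔ ∃ d β, g.Den (xN d) x ∧ g.Den (xN β) y ∧ ∃ p ∈ g.G, Val β d true p := by
  rw [show g.Den UN U ↔ g.Den (relN (ι := {x : Ix × Ix × Cd // Val x.2.1 x.1 true x.2.2})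
    (fun x => xN x.1.1) (fun x => xN x.1.2.1) (fun x => x.1.2.2)) U from Iff.rfl] at hU
  rw [den_relN hU]
  constructor
  · rintro ⟨⟨⟨d, β, p⟩, h⟩, hp, hx, hy⟩
    exact ⟨d, β, hx, hy, p, hp, h⟩
  · rintro ⟨d, β, hx, hy, p, hp, h⟩
    exact ⟨⟨⟨d, β, p⟩, h⟩, hp, hx, hy⟩

theorem rel_UN' {U : g.M} (hU : g.Den UN U) {d β : Ix} {x y : g.M} (hx : g.Den (xN d) x)
    (hy : g.Den (xN β) y) : Rel g.E U x y ↔ ∃ p ∈ g.G, Val β d true p := by
  rw [rel_UN hU]
  constructor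
  · rintro ⟨d', β', hx', hy', h⟩
    rwa [xN_inj hx hx', xN_inj hy hy']
  · intro h
    exact ⟨d, β, hx, hy, h⟩

theorem mem_finN {n : ℕ} {b : Fin n → Ix} {F : g.M} (hF : g.Den (finN b) F) (z : g.M) :
    g.E z F ↔ ∃ i, g.Den (iN (b i)) z := by
  rw [Gen.mem_iff hF]
  constructor
  · rintro ⟨i, -, h⟩
    exact ⟨i, h⟩
  · rintro ⟨i, h⟩
    exact ⟨i, g.top_mem, h⟩

theorem finN_den {n : ℕ} {b : Fin n → Ix} {F : g.M} (hF : g.Den (finN b) F) (i : Fin n) :
    ∃ z, g.Den (iN (b i)) z :=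
  hF.of_countable (inferInstanceAs (Countable (Fin n))) (show (finN b).idx from i)

theorem mem_patN {n : ℕ} {e : Fin n → Bool} {b : g.M} (hb : g.Den (patN e) b) (z : g.M) :
    g.E z b ↔ ∃ i : Fin n, e i = true ∧ g.Den (onN Cd (i.1 : ℕ)) z := by
  rw [Gen.mem_iff hb]
  constructor
  · rintro ⟨i, -, h⟩
    exact ⟨i.1, i.2, h⟩
  · rintro ⟨i, h, h'⟩
    exact ⟨⟨i, h⟩, g.top_mem, h'⟩

end Pool.Agent.H51.Hfc
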