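import Pool.Agent.H51.Hfc.Book

/-!
# The points `x_d` and forcing of their values

`g` is the generic function `Ix × Ix → 2`, `D_d` the set named by the code `NN d` if `d` is good and the
empty set otherwise.  `x_d(d) = 1`, `x_d(α) = 0` for `α ∈ D_d`, and `x_d(α) = g(d, α)` otherwise.
`d` is good if the support of `NN d` is below `d` and the set of the `x_γ`, `γ ∈ D_d`, is forced to be
discrete.

`InD d α p`: `p` is below a pair witnessing `α ∈ D_d`; `Val d α b p`: `p` forces `x_d(α) = b`.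
-/

set_option autoImplicit false

namespace Pool.Agent.H51.Hfc

open Pool.Agent.H90.SN

/-- the bookkeeping -/
noncomputable def NN (β : Ix) : Set (Ix × Cd) := (Classical.choice exists_book).N β

theorem NN_countable (β : Ix) : (NN β).Countable := (Classical.choice exists_book).cnt β

theorem exists_NN {c : Set (Ix × Cd)} (h : c.Countable) : ∃ β, NN β = c ∧ supp c ⊆ Set.Iio β :=
  (Classical.choice exists_book).cof c h

def InN (g : Prop) (N : Set (Ix × Cd)) (α : Ix) (p : Cd) : Prop := g ∧ ∃ t, (α, t) ∈ N ∧ p ≤ t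

def ValN (g : Prop) (N : Set (Ix × Cd)) (d α : Ix) : Bool → Cd → Prop
  | true, p => α = d ∨ ((∀ q ≤ p, ¬ InN g N α q) ∧ p.f d α = some true)
  | false, p => α ≠ d ∧ ∀ q ≤ p, ∃ r ≤ q, InN g N α r ∨ r.f d α = some false

/-- the code `N` is forced to be the code of a discrete set, provided that goodness is given by `G` -/
def DiscN (G : Ix → Prop) (N : Set (Ix × Cd)) : Prop :=
  ∀ d t, (d, t) ∈ N → ∀ q ≤ t, ∃ r ≤ q, ∃ E : Finset Ix, ∃ e : Ix → Bool,
    (∀ α ∈ E, ValN (G d) (NN d) d α (e α) r) ∧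
    ∀ d' t', (d', t') ∈ N → ∀ r' ≤ r, r' ≤ t' →
      (∀ α ∈ E, ValN (G d') (NN d') d' α (e α) r') → d' = d

/-- good indices -/
def Good : Ix → Prop :=
  WellFounded.fix (IsWellFounded.wf : WellFounded ((· < ·) : Ix → Ix → Prop))
    (fun β rec => supp (NN β) ⊆ Set.Iio β ∧ DiscN (fun γ => ∃ h : γ < β, rec γ h) (NN β))

theorem DiscN.congr {G G' : Ix → Prop} {N : Set (Ix × Cd)} (h : ∀ x ∈ N, (G x.1 ↔ G' x.1))
    (hd : DiscN G N) : DiscN G' N := by
  intro d t hdt q hq
  obtain ⟨r, hr, E, e, h1, h2⟩ := hd d t hdt q hq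
  have hg : ∀ d' t', (d', t') ∈ N → G d' = G' d' := fun d' t' h' => propext (h _ h')
  refine ⟨r, hr, E, e, fun α hα => ?_, fun d' t' h3 r' hr' hrt' h4 => ?_⟩
  · rw [← hg d t hdt]
    exact h1 α hα
  · refine h2 d' t' h3 r' hr' hrt' fun α hα => ?_
    rw [hg d' t' h3]
    exact h4 α hα

theorem good_iff {β : Ix} : Good β ↔ supp (NN β) ⊆ Set.Iio β ∧ DiscN Good (NN β) := by
  have h0 : Good β ↔ supp (NN β) ⊆ Set.Iio β ∧ DiscN (fun γ => ∃ _ : γ < β, Good γ) (NN β) := by
    unfold Good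
    rw [WellFounded.fix_eq]
  rw [h0]
  refine and_congr_right fun hs => ?_
  have h1 : ∀ x ∈ NN β, ((∃ _ : x.1 < β, Good x.1) ↔ Good x.1) := by
    intro x hx
    have : x.1 < β := hs ⟨x, hx, Or.inl rfl⟩
    exact ⟨fun h => h.2, fun h => ⟨this, h⟩⟩
  exact ⟨DiscN.congr h1, DiscN.congr fun x hx => (h1 x hx).symm⟩

/-- `p` is below a witness for `α ∈ D_β` -/
def InD (β α : Ix) (p : Cd) : Prop := InN (Good β) (NN β) α p

/-- `p` forces `x_d(α) = b` -/
def Val (d α : Ix) (b : Bool) (p : Cd) : Prop := ValN (Good d) (NN d) d α b p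

theorem val_true {d α : Ix} {p : Cd} :
    Val d α true p ↔ α = d ∨ ((∀ q ≤ p, ¬ InD d α q) ∧ p.f d α = some true) := Iff.rfl

theorem val_false {d α : Ix} {p : Cd} :
    Val d α false p ↔ α ≠ d ∧ ∀ q ≤ p, ∃ r ≤ q, InD d α r ∨ r.f d α = some false := Iff.rfl

theorem inD_iff {β α : Ix} {p : Cd} : InD β α p ↔ Good β ∧ ∃ t, (α, t) ∈ NN β ∧ p ≤ t := Iff.rfl

theorem InD.mono {β α : Ix} {p q : Cd} (h : InD β α p) (hq : q ≤ p) : InD β α q := by
  obtain ⟨h1, t, h2, h3⟩ := h
  exact ⟨h1, t, h2, hq.trans h3⟩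

theorem InD.mem_supp {β α : Ix} {p : Cd} (h : InD β α p) : α ∈ supp (NN β) := by
  obtain ⟨h1, t, h2, h3⟩ := h
  exact ⟨(α, t), h2, Or.inl rfl⟩

theorem InD.lt {β α : Ix} {p : Cd} (h : InD β α p) : α < β := (good_iff.1 h.1).1 h.mem_supp

/-- the discreteness of the set `D_β` -/
theorem InD.disc {β d : Ix} {p : Cd} (h : InD β d p) : ∃ r ≤ p, ∃ E : Finset Ix, ∃ e : Ix → Bool,
    (∀ α ∈ E, Val d α (e α) r) ∧
    ∀ d', ∀ r' ≤ r, InD β d' r' → (∀ α ∈ E, Val d' α (e α) r') → d' = d := by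
  obtain ⟨h1, t, h2, h3⟩ := h
  obtain ⟨r, hr, E, e, h4, h5⟩ := (good_iff.1 h1).2 d t h2 p h3
  refine ⟨r, hr, E, e, h4, ?_⟩
  rintro d' r' hr' ⟨-, t', h6, h7⟩ h8
  exact h5 d' t' h6 r' hr' h7 h8

theorem Val.mono {d α : Ix} {b : Bool} {p q : Cd} (h : Val d α b p) (hq : q ≤ p) :
    Val d α b q := by
  cases b with
  | true =>
    rw [val_true] at h ⊢
    refine h.imp id fun h => ⟨fun r hr => h.1 r (hr.trans hq), hq _ _ _ h.2⟩
  | false =>
    rw [val_false] at h ⊢
    exact ⟨h.1, fun r hr => h.2 r (hr.trans hq)⟩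

theorem Val.not_both {d α : Ix} {p : Cd} (h : Val d α true p) (h' : Val d α false p) : False := by
  rw [val_true] at h
  rw [val_false] at h'
  rcases h with h | ⟨h1, h2⟩
  · exact h'.1 h
  · obtain ⟨r, hr, h3 | h3⟩ := h'.2 p le_rfl
    · exact h1 r hr h3
    · rw [hr _ _ _ h2] at h3
      cases h3

theorem Val.unique {d α : Ix} {b b' : Bool} {p : Cd} (h : Val d α b p) (h' : Val d α b' p) :
    b = b' := by
  cases b <;> cases b'
  · rfl
  · exact (h'.not_both h).elim
  · exact (h.not_both h').elim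
  · rfl

/-- an extension deciding one more value of the generic function -/
theorem exists_ext (p : Cd) (d α : Ix) (b : Bool) (h : p.f d α ≠ some !b) :
    ∃ q ≤ p, q.f d α = some b := by
  refine ⟨p.upd {(d, α)} (Set.finite_singleton _) fun _ _ => some b, ?_, ?_⟩
  · intro a c v hv
    by_cases hac : (a, c) = (d, α)
    · rw [Cd.upd_of_mem (by simpa using hac)]
      simp only [Prod.mk.injEq] at hac
      obtain ⟨rfl, rfl⟩ := hac
      rw [hv] at h
      cases b <;> cases v <;> simp_all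
    · rw [Cd.upd_of_notMem (by simpa using hac)]
      exact hv
  · rw [Cd.upd_of_mem (Set.mem_singleton _)]

theorem val_false_of {d α : Ix} {p : Cd} (h : ∀ q ≤ p, ¬ Val d α true q) : Val d α false p := by
  rw [val_false]
  refine ⟨fun hd => h p le_rfl (val_true.2 (Or.inl hd)), fun q hq => ?_⟩
  by_contra hcon
  push Not at hcon
  have h1 : ∀ r ≤ q, ¬ InD d α r := fun r hr => (hcon r hr).1
  have h2 : q.f d α ≠ some !false := by
    intro h3
    exact h q hq (val_true.2 (Or.inr ⟨h1, h3⟩))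
  obtain ⟨r, hr, h4⟩ := exists_ext q d α false h2
  exact (hcon r hr).2 h4

theorem val_true_of {d α : Ix} {p : Cd} (h : ∀ q ≤ p, ¬ Val d α false q) : Val d α true p := by
  rw [val_true]
  by_cases hd : α = d
  · exact Or.inl hd
  refine Or.inr ⟨fun q hq hin => ?_, ?_⟩
  · exact h q hq (val_false.2 ⟨hd, fun r hr => ⟨r, le_rfl, Or.inl (hin.mono hr)⟩⟩)
  · by_contra hcon
    obtain ⟨q, hq, h1⟩ := exists_ext p d α false hcon
    exact h q hq (val_false.2 ⟨hd, fun r hr => ⟨r, le_rfl, Or.inr (hr _ _ _ h1)⟩⟩)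

theorem val_decide (d α : Ix) (p : Cd) : ∃ q ≤ p, ∃ b, Val d α b q := by
  by_contra hcon
  push Not at hcon
  exact hcon p le_rfl false (val_false_of fun q hq => hcon q hq true)

theorem Val.stable {d α : Ix} {b : Bool} {p : Cd} (h : ∀ q ≤ p, ∃ r ≤ q, Val d α b r) :
    Val d α b p := by
  cases b with
  | true =>
    refine val_true_of fun q hq h1 => ?_
    obtain ⟨r, hr, h2⟩ := h q hq
    exact h2.not_both (h1.mono hr)
  | false =>
    refine val_false_of fun q hq h1 => ?_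
    obtain ⟨r, hr, h2⟩ := h q hq
    exact (h1.mono hr).not_both h2

theorem exists_vals (d : Ix) (E : Finset Ix) (p : Cd) :
    ∃ q ≤ p, ∃ e : Ix → Bool, ∀ α ∈ E, Val d α (e α) q := by
  classical
  induction E using Finset.induction_on with
  | empty => exact ⟨p, le_rfl, fun _ => true, by simp⟩
  | insert α E hα ih =>
    obtain ⟨q, hq, e, he⟩ := ih
    obtain ⟨r, hr, b, hb⟩ := val_decide d α q
    refine ⟨r, hr.trans hq, fun x => if x = α then b else e x, fun x hx => ?_⟩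
    by_cases hxα : x = α
    · subst hxα
      simpa using hb
    · simp only [hxα, if_false]
      exact (he x ((Finset.mem_insert.1 hx).resolve_left hxα)).mono hr

theorem exists_vals' {n : ℕ} (b : Fin n → Ix) (E : Finset Ix) (p : Cd) :
    ∃ q ≤ p, ∃ e : Fin n → Ix → Bool, ∀ i, ∀ α ∈ E, Val (b i) α (e i α) q := by
  induction n with
  | zero => exact ⟨p, le_rfl, fun i => i.elim0, fun i => i.elim0⟩
  | succ n ih =>
    obtain ⟨q, hq, e, he⟩ := ih (fun i => b i.castSucc)
    obtain ⟨r, hr, e', he'⟩ := exists_vals (b (Fin.last n)) E q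
    refine ⟨r, hr.trans hq, Fin.snoc (α := fun _ => Ix → Bool) e e', fun i => ?_⟩
    refine Fin.lastCases ?_ (fun j => ?_) i
    · simpa using he'
    · intro α hα
      simpa using (he j α hα).mono hr

end Pool.Agent.H51.Hfc
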